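import Pool.Agent.H15.G.R_seed8.TH167.SH.Red

set_option autoImplicit false

/-!
# The decomposition of a nonempty linear system
-/

namespace Pool.Agent.TH167.SH

open MvPolynomial Pool.Agent.W609 Pool.Agent.W609.CR

/-- One quadratic transformation of numerical classes. -/
def Quad {s : ℕ} (a b : ℕ × (Fin s → ℕ)) : Prop :=
  ∃ i : Fin 3 → Fin s, Function.Injective i ∧ PS i a.1 a.2 ∧ b = (cd i a.1 a.2, wcr a.1 i a.2)

theorem three_sorted {r : ℕ} {v : Fin (r + 4) → ℕ} (hσ : Antitone v)
    {i j k : Fin (r + 4)} (hij : i ≠ j) (hik : i ≠ k)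
    (hjk : j ≠ k) : v i + v j + v k ≤ v 0 + v 1 + v 2 := by
  have n0 : ((0 : Fin (r + 4)) : ℕ) = 0 := rfl
  have n1 : ((1 : Fin (r + 4)) : ℕ) = 1 := Nat.mod_eq_of_lt (show 1 < r + 4 by omega)
  have n2 : ((2 : Fin (r + 4)) : ℕ) = 2 := Nat.mod_eq_of_lt (show 2 < r + 4 by omega)
  have key : ∀ a b c : Fin (r + 4), (a : ℕ) < b → (b : ℕ) < c → v a + v b + v c ≤ v 0 + v 1 + v 2 := by
    intro a b c hab hbc
    have h1 : v a ≤ v 0 := hσ (by rw [Fin.le_def, n0]; omega)
    have h2 : v b ≤ v 1 := hσ (by rw [Fin.le_def, n1]; omega)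
    have h3 : v c ≤ v 2 := hσ (by rw [Fin.le_def, n2]; omega)
    omega
  have e1 : (i : ℕ) ≠ j := fun h => hij (Fin.ext h)
  have e2 : (i : ℕ) ≠ k := fun h => hik (Fin.ext h)
  have e3 : (j : ℕ) ≠ k := fun h => hjk (Fin.ext h)
  rcases Nat.lt_or_gt_of_ne e1 with a1 | a1 <;> rcases Nat.lt_or_gt_of_ne e2 with a2 | a2 <;>
    rcases Nat.lt_or_gt_of_ne e3 with a3 | a3
  · exact key i j k a1 a3
  · have := key i k j a2 a3; omega
  · omega
  · have := key k i j a2 a1; omega
  · have := key j i k a1 a2; omega
  · omega
  · have := key j k i a3 a2; omega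
  · have := key k j i a3 a1; omega

/-- Reduced classes meet curves `C` with `-K C ≥ 0` nonnegatively. -/
theorem red_ip {r : ℕ} {d e : ℕ} {w u : Fin (r + 4) → ℕ} (hred : Reduced d w)
    (hu : ∀ j, u j ≤ e) (hs : ∑ j, u j ≤ 3 * e) : 0 ≤ ip d w e u := by
  classical
  have n0 : ((0 : Fin (r + 4)) : ℕ) = 0 := rfl
  have n1 : ((1 : Fin (r + 4)) : ℕ) = 1 := Nat.mod_eq_of_lt (show 1 < r + 4 by omega)
  have n2 : ((2 : Fin (r + 4)) : ℕ) = 2 := Nat.mod_eq_of_lt (show 2 < r + 4 by omega)
  obtain ⟨σ, hσ⟩ := exists_sort w
  have ne01 : σ 0 ≠ σ 1 := fun h => by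
    have := congrArg Fin.val (σ.injective h)
    rw [n0, n1] at this
    omega
  have ne02 : σ 0 ≠ σ 2 := fun h => by
    have := congrArg Fin.val (σ.injective h)
    rw [n0, n2] at this
    omega
  have ne12 : σ 1 ≠ σ 2 := fun h => by
    have := congrArg Fin.val (σ.injective h)
    rw [n1, n2] at this
    omega
  have hge := hred _ _ _ ne01 ne02 ne12
  have h21 : w (σ 1) ≤ w (σ 0) := hσ (by rw [Fin.le_def, n1, n0]; omega)
  have h32 : w (σ 2) ≤ w (σ 1) := hσ (by rw [Fin.le_def, n1, n2]; omega)
  have k1 : (Fin.succ (0 : Fin (r + 3))) = (1 : Fin (r + 4)) := Fin.ext (by rw [n1]; rfl)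
  have hsplit : ∀ g : Fin (r + 4) → ℕ, ∑ j, g j = g 0 + g 1 +
      ∑ j : Fin (r + 2), g (Fin.succ (Fin.succ j)) := by
    intro g
    rw [Fin.sum_univ_succ, Fin.sum_univ_succ, k1]
    omega
  have key : ∑ j, w j * u j ≤ d * e := by
    rw [← Equiv.sum_comp σ (fun j => w j * u j), hsplit]
    rw [← Equiv.sum_comp σ u, hsplit] at hs
    have h1 : ∑ j : Fin (r + 2), w (σ (Fin.succ (Fin.succ j))) * u (σ (Fin.succ (Fin.succ j))) ≤
        w (σ 2) * ∑ j : Fin (r + 2), u (σ (Fin.succ (Fin.succ j))) := by
      rw [Finset.mul_sum]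
      refine Finset.sum_le_sum fun j _ => Nat.mul_le_mul_right _ (hσ ?_)
      rw [Fin.le_def, n2]
      simp only [Fin.val_succ]
      omega
    have u0 := hu (σ 0)
    have u1 := hu (σ 1)
    generalize ∑ j : Fin (r + 2), u (σ (Fin.succ (Fin.succ j))) = S at *
    generalize ∑ j : Fin (r + 2), w (σ (Fin.succ (Fin.succ j))) * u (σ (Fin.succ (Fin.succ j))) = T
      at *
    generalize w (σ 0) = a at *
    generalize w (σ 1) = b at *
    generalize w (σ 2) = c at *
    generalize u (σ 0) = x at *
    generalize u (σ 1) = y at *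
    obtain ⟨b', rfl⟩ : ∃ b', b = c + b' := ⟨b - c, by omega⟩
    obtain ⟨a', rfl⟩ : ∃ a', a = c + a' := ⟨a - c, by omega⟩
    have h3 : c * (x + y + S) ≤ c * (3 * e) := Nat.mul_le_mul_left _ hs
    have h4 : a' * x ≤ a' * e := Nat.mul_le_mul_left _ u0
    have h5 : b' * y ≤ b' * e := Nat.mul_le_mul_left _ u1
    have h6 : (c + a' + (c + b') + c) * e ≤ d * e := Nat.mul_le_mul_right _ hge
    nlinarith
  unfold ip
  have h2 : ∑ j, (w j : ℤ) * u j = ((∑ j, w j * u j : ℕ) : ℤ) := by push_cast; rfl
  rw [h2, sub_nonneg]
  exact_mod_cast key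

theorem red_nef {K : Type} [Field K] {r : ℕ} {P : Fin (r + 4) → Fin 2 → K} {d : ℕ}
    {w : Fin (r + 4) → ℕ} (hred : Reduced d w) {C : MvPolynomial (Fin 3) K} {e : ℕ}
    {u : Fin (r + 4) → ℕ} (h : Exc P C e u) : 0 ≤ ip d w e u := by
  refine red_ip hred (fun j => van_le h.irr.ne_zero h.hom (h.ord j).1) ?_
  have := h.can
  omega

theorem few_of_le {s m d' : ℕ} {w w' : Fin s → ℕ} (hle : ∀ j, w' j ≤ w j)
    (h : (Finset.univ.filter fun i => m < w i).card ≤ 5) : Few m d' w' := by
  left
  refine le_trans (Finset.card_le_card fun j hj => ?_) h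
  rw [Finset.mem_filter] at hj ⊢
  exact ⟨hj.1, lt_of_lt_of_le hj.2 (hle j)⟩

theorem main {K : Type} [Field K] [CharZero K] {r m : ℕ} :
    ∀ (d : ℕ) (P : Fin (r + 4) → Fin 2 → K)
      (_ : AlgebraicIndependent ℚ (fun ij : Fin (r + 4) × Fin 2 => P ij.1 ij.2))
      (w : Fin (r + 4) → ℕ) (_ : Few m d w)
      (_ : 0 < Module.finrank K ↥(VS (fun j => aff (P j)) w d)),
      ∃ (d' : ℕ) (w' : Fin (r + 4) → ℕ) (k : ℕ) (C : Fin k → MvPolynomial (Fin 3) K)
        (e : Fin k → ℕ) (u : Fin k → Fin (r + 4) → ℕ) (N : Fin k → ℕ),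
        Dec P d w d' w' C e u N ∧
        Module.finrank K ↥(VS (fun j => aff (P j)) w' d') =
          Module.finrank K ↥(VS (fun j => aff (P j)) w d) ∧
        ∃ (P1 : Fin (r + 4) → Fin 2 → K) (d1 : ℕ) (w1 : Fin (r + 4) → ℕ),
          AlgebraicIndependent ℚ (fun ij : Fin (r + 4) × Fin 2 => P1 ij.1 ij.2) ∧
          Relation.ReflTransGen Quad (d', w') (d1, w1) ∧ Few m d1 w1 ∧ Reduced d1 w1 ∧
          Module.finrank K ↥(VS (fun j => aff (P1 j)) w1 d1) =
            Module.finrank K ↥(VS (fun j => aff (P j)) w' d') := by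
  classical
  have n0 : ((0 : Fin (r + 4)) : ℕ) = 0 := rfl
  have n1 : ((1 : Fin (r + 4)) : ℕ) = 1 := Nat.mod_eq_of_lt (show 1 < r + 4 by omega)
  have n2 : ((2 : Fin (r + 4)) : ℕ) = 2 := Nat.mod_eq_of_lt (show 2 < r + 4 by omega)
  intro d
  induction d using Nat.strong_induction_on with
  | _ d ih =>
    intro P hP w hw hpos
    obtain ⟨σ, hσ⟩ := exists_sort w
    have ne01 : σ 0 ≠ σ 1 := fun h => by
      have := congrArg Fin.val (σ.injective h)
      rw [n0, n1] at this
      omega
    have h21 : w (σ 1) ≤ w (σ 0) := hσ (by rw [Fin.le_def, n1, n0]; omega)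
    have h32 : w (σ 2) ≤ w (σ 1) := hσ (by rw [Fin.le_def, n1, n2]; omega)
    have hwd : ∀ j, w j ≤ d := by
      intro j
      have hf := vs_fin (fun j => aff (P j)) w d
      have h1 : Nontrivial ↥(VS (fun j => aff (P j)) w d) := Module.finrank_pos_iff.1 hpos
      obtain ⟨⟨f, hf⟩, hf0⟩ := exists_ne (0 : ↥(VS (fun j => aff (P j)) w d))
      rw [mem_VS] at hf
      exact van_le (fun h => hf0 (Subtype.ext h)) hf.1 (hf.2 j)
    -- the number of large multiplicities
    have hcard : ∀ t : ℕ, ∀ ht : t < r + 4, t ≤ 5 → w (σ ⟨t, ht⟩) ≤ m →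
        (Finset.univ.filter fun i => m < w i).card ≤ 5 := by
      intro t ht ht5 htm
      have h1 : (Finset.univ.filter fun i => m < w i) ⊆
          (Finset.univ.filter fun a : Fin (r + 4) => (a : ℕ) < t).image σ := by
        intro j hj
        rw [Finset.mem_filter] at hj
        rw [Finset.mem_image]
        refine ⟨σ.symm j, ?_, σ.apply_symm_apply j⟩
        rw [Finset.mem_filter]
        refine ⟨Finset.mem_univ _, ?_⟩
        by_contra hcon
        push Not at hcon
        have h2 : w (σ (σ.symm j)) ≤ w (σ ⟨t, ht⟩) := hσ (by rw [Fin.le_def]; exact hcon)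
        rw [σ.apply_symm_apply] at h2
        omega
      refine (Finset.card_le_card h1).trans (Finset.card_image_le.trans ?_)
      have h3 : (Finset.univ.filter fun a : Fin (r + 4) => (a : ℕ) < t).card ≤
          (Finset.range t).card := by
        refine Finset.card_le_card_of_injOn (fun a => (a : ℕ)) (fun a ha => ?_)
          (fun a _ b _ h => Fin.ext h)
        rw [Finset.mem_coe, Finset.mem_filter] at ha
        rw [Finset.mem_coe, Finset.mem_range]
        exact ha.2
      rw [Finset.card_range] at h3
      omega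
    rcases Nat.lt_or_ge d (w (σ 0) + w (σ 1)) with hline | hline
    · -- a line splits off
      obtain ⟨k, hk⟩ : ∃ k, k = w (σ 0) + w (σ 1) - d := ⟨_, rfl⟩
      have w0 := hwd (σ 0)
      have w1 := hwd (σ 1)
      have hdim := line_k hP ne01 k w d (by omega) (by omega) (by omega) (by omega)
      have hsle : ∀ j, sb (σ 0) (σ 1) k w j ≤ w j := by
        intro j
        unfold sb
        split_ifs <;> omega
      have hfew : Few m (d - k) (sb (σ 0) (σ 1) k w) := by
        rcases hw with h | h
        · exact few_of_le hsle h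
        · rcases Nat.lt_or_ge m (w (σ 1)) with hm1 | hm1
          · right
            have h2 : ∀ j, (if m < sb (σ 0) (σ 1) k w j then sb (σ 0) (σ 1) k w j else 0) +
                (if j = σ 0 ∨ j = σ 1 then 1 else 0) * k ≤ (if m < w j then w j else 0) := by
              intro j
              unfold sb
              by_cases hj : j = σ 0 ∨ j = σ 1
              · have hwj : m < w j ∧ k ≤ w j := by
                  rcases hj with hj | hj
                  · rw [hj]; omega
                  · rw [hj]; omega
                rw [if_pos hj, if_pos hj, if_pos hwj.1]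
                split_ifs <;> omega
              · rw [if_neg hj, if_neg hj]
                omega
            have h3 := Finset.sum_le_sum (s := Finset.univ) fun j _ => h2 j
            rw [Finset.sum_add_distrib, sum_two ne01 (fun _ => k)] at h3
            omega
          · refine few_of_le hsle (hcard 1 (by omega) (by omega) ?_)
            exact hm1
      obtain ⟨d', w', n, C, e, u, N, hD, hd1, hrest⟩ := ih (d - k) (by omega) P hP
        (sb (σ 0) (σ 1) k w) hfew (by rw [← hdim]; exact hpos)
      exact ⟨d', w', n + 1, _, _, _, _,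
        hD.line hP ne01 (by omega) (by omega) (by omega) (by omega) (by omega),
        hd1.trans hdim.symm, hrest⟩
    · rcases Nat.lt_or_ge d (w (σ 0) + w (σ 1) + w (σ 2)) with hlt | hge
      · -- a quadratic transformation
        obtain ⟨i, hi⟩ : ∃ i : Fin 3 → Fin (r + 4), i = fun k => σ ⟨k.1, by omega⟩ := ⟨_, rfl⟩
        have hinj : Function.Injective i := by
          intro a b hab
          rw [hi] at hab
          have h1 := σ.injective hab
          exact Fin.ext (Fin.mk.inj h1)
        have i0 : i 0 = σ 0 := by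
          rw [hi]
          rfl
        have i1 : i 1 = σ 1 := by
          rw [hi]
          show σ _ = σ 1
          congr 1
        have i2 : i 2 = σ 2 := by
          rw [hi]
          show σ _ = σ 2
          congr 1
        have p : PS i d w := by
          constructor
          · rw [i0, i1]; omega
          · rw [i0, i2]; omega
          · rw [i1, i2]; omega
        obtain ⟨P', hP', hr⟩ := exists_crel hP hinj
        have hdim := hr.dim p
        have hcdv : cd i d w = 2 * d - (w (σ 0) + w (σ 1) + w (σ 2)) := by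
          unfold cd
          rw [i0, i1, i2]
        obtain ⟨t, ht⟩ : ∃ t, t = w (σ 0) + w (σ 1) + w (σ 2) - d := ⟨_, rfl⟩
        have hwle : ∀ j, wcr d i w j ≤ w j := by
          intro j
          unfold wcr
          rw [i0, i1, i2]
          split_ifs with c0 c1 c2
          · rw [c0]; omega
          · rw [c1]; omega
          · rw [c2]; omega
          · exact le_rfl
        have hfew : Few m (cd i d w) (wcr d i w) := by
          rcases hw with h | h
          · exact few_of_le hwle h
          · rcases Nat.lt_or_ge m (w (σ 2)) with hm1 | hm1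
            · right
              have h2 : ∀ j, ((if m < wcr d i w j then wcr d i w j else 0 : ℕ) : ℤ) +
                  ic i j * t ≤ ((if m < w j then w j else 0 : ℕ) : ℤ) := by
                intro j
                unfold ic
                by_cases hj : j = i 0 ∨ j = i 1 ∨ j = i 2
                · have hwj : m < w j ∧ wcr d i w j + t = w j := by
                    unfold wcr
                    rcases hj with hj | hj | hj
                    · rw [if_pos hj, hj, i0, i1, i2]
                      omega
                    · rw [if_neg (by rw [hj]; exact ne10 hinj), if_pos hj, hj, i0, i1, i2]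
                      omega
                    · rw [if_neg (by rw [hj]; exact ne20 hinj),
                        if_neg (by rw [hj]; exact ne21 hinj), if_pos hj, hj, i0, i1, i2]
                      omega
                  rw [if_pos hj, if_pos hwj.1]
                  split_ifs <;> omega
                · have hwj : wcr d i w j = w j := by
                    unfold wcr
                    rw [if_neg (by tauto), if_neg (by tauto), if_neg (by tauto)]
                  rw [if_neg hj, hwj]
                  omega
              have h3 := Finset.sum_le_sum (s := Finset.univ) fun j _ => h2 j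
              rw [Finset.sum_add_distrib, sum_ic hinj (fun _ => (t : ℤ)), ← Nat.cast_sum,
                ← Nat.cast_sum] at h3
              omega
            · refine few_of_le hwle (hcard 2 (by omega) (by omega) ?_)
              have : (⟨2, by omega⟩ : Fin (r + 4)) = 2 := Fin.ext n2.symm
              rw [this]
              exact hm1
        obtain ⟨d', w', n, C, e, u, N, hD, hd1, P1, d1, w1, c1, c2, c3, c4, c5⟩ :=
          ih (cd i d w) (by omega) P' hP' (wcr d i w) hfew (by rw [hdim]; exact hpos)
        obtain ⟨pM, C', hD'⟩ := hD.pull hP hP' hr p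
        have hdM := hr.symm.dim pM
        refine ⟨_, _, n, C', _, _, N, hD', ?_, P1, d1, w1, c1, ?_, c3, c4, ?_⟩
        · rw [hdM, hd1, hdim]
        · refine Relation.ReflTransGen.head ⟨i, hinj, pM.cr hinj, ?_⟩ c2
          rw [cd_cr hinj pM, wcr_cr hinj pM]
        · rw [hdM, c5]
      · -- the reduced case
        have hred : Reduced d w := by
          intro i j k hij hik hjk
          have hw' : ∀ l, w l = (fun j => w (σ j)) (σ.symm l) := by
            intro l
            show w l = w (σ (σ.symm l))
            rw [σ.apply_symm_apply]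
          rw [hw' i, hw' j, hw' k]
          refine le_trans ?_ hge
          have hij' : σ.symm i ≠ σ.symm j := fun h => hij (σ.symm.injective h)
          have hik' : σ.symm i ≠ σ.symm k := fun h => hik (σ.symm.injective h)
          have hjk' : σ.symm j ≠ σ.symm k := fun h => hjk (σ.symm.injective h)
          exact three_sorted hσ hij' hik' hjk'
        refine ⟨d, w, 0, Fin.elim0, Fin.elim0, Fin.elim0, Fin.elim0, ?_, rfl, P, d, w, hP,
          Relation.ReflTransGen.refl, hw, hred, rfl⟩
        refine ⟨fun a => a.elim0, fun a => a.elim0, fun a => a.elim0, ?_, ?_, fun a => a.elim0,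
          fun C e u h => red_nef hred h⟩
        · simp
        · intro j
          simp

end Pool.Agent.TH167.SH
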