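import Mathlib
import Pool.Agent.H15.G.R_seed8.W609.CR.Prime
import Pool.Agent.H15.G.R_seed8.Chud.PBZ
import Pool.Agent.H15.G.R_seed8.Chud.PD1

set_option autoImplicit false

/-!
# Orders of vanishing, lines and the inequality of Bezout
-/

namespace Pool.Agent.TH167.SH

open MvPolynomial Pool.Agent.W609.CR

theorem mem_VS {K : Type} [Field K] {ι : Type} (v : ι → Fin 3 → K) (w : ι → ℕ) (d : ℕ)
    (f : MvPolynomial (Fin 3) K) :
    f ∈ VS v w d ↔ f.IsHomogeneous d ∧ ∀ i, Van (v i) (w i) f :=
  Pool.Agent.W150.CR.mem_VS v w d f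

theorem inj_of_alg {K : Type} [Field K] [CharZero K] {s : ℕ} {P : Fin s → Fin 2 → K}
    (hP : AlgebraicIndependent ℚ (fun ij : Fin s × Fin 2 => P ij.1 ij.2)) :
    Function.Injective P := by
  intro i j hij
  have h1 := hP.injective (a₁ := (i, 0)) (a₂ := (j, 0)) (congrFun hij 0)
  exact (Prod.mk.inj h1).1

theorem aff_ne {K : Type} [Field K] (a : Fin 2 → K) : aff a ≠ 0 := by
  intro h
  have := congrFun h 2
  simp [aff] at this

/-- The order at a vector. -/
noncomputable def od {K : Type} [Field K] (v : Fin 3 → K) (f : MvPolynomial (Fin 3) K) : ℕ∞ :=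
  ((shift (n := 2) v f : MvPolynomial (Fin 3) K) : MvPowerSeries (Fin 3) K).order

theorem van_iff {K : Type} [Field K] (v : Fin 3 → K) (m : ℕ) (f : MvPolynomial (Fin 3) K) :
    Van v m f ↔ (m : ℕ∞) ≤ od v f := by
  unfold Van od
  rw [mem_ker_pow_iff (n := 2)]
  constructor
  · intro h
    apply MvPowerSeries.nat_le_order
    intro d hd
    rw [MvPolynomial.coeff_coe]
    exact h d hd
  · intro h b hb
    have h1 := MvPowerSeries.coeff_of_lt_order (f := ((shift (n := 2) v f :
      MvPolynomial (Fin 3) K) : MvPowerSeries (Fin 3) K)) (d := b)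
      (lt_of_lt_of_le (by exact_mod_cast hb) h)
    rw [MvPolynomial.coeff_coe] at h1
    exact h1

theorem od_mul {K : Type} [Field K] (v : Fin 3 → K) (f g : MvPolynomial (Fin 3) K) :
    od v (f * g) = od v f + od v g := by
  unfold od
  rw [map_mul, MvPolynomial.coe_mul, MvPowerSeries.order_mul]

theorem ord_iff {K : Type} [Field K] (v : Fin 3 → K) (m : ℕ) (f : MvPolynomial (Fin 3) K) :
    Ord v m f ↔ od v f = (m : ℕ∞) := by
  unfold Pool.Agent.W609.CR.Ord
  rw [van_iff, van_iff]
  constructor
  · rintro ⟨h1, h2⟩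
    refine le_antisymm ?_ h1
    rw [not_le] at h2
    exact ENat.lt_add_one_iff (by simp) |>.1 (by exact_mod_cast h2)
  · intro h
    rw [h]
    refine ⟨le_rfl, ?_⟩
    rw [not_le]
    exact_mod_cast Nat.lt_succ_self m

theorem van_mul {K : Type} [Field K] {v : Fin 3 → K} {a b : ℕ} {f g : MvPolynomial (Fin 3) K}
    (hf : Van v a f) (hg : Van v b g) : Van v (a + b) (f * g) := by
  unfold Van at *
  rw [pow_add]
  exact Ideal.mul_mem_mul hf hg

theorem van_zero {K : Type} [Field K] (v : Fin 3 → K) (f : MvPolynomial (Fin 3) K) :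
    Van v 0 f := by
  unfold Van
  simp

theorem van_mono {K : Type} [Field K] {v : Fin 3 → K} {a b : ℕ} {f : MvPolynomial (Fin 3) K}
    (hab : a ≤ b) (hf : Van v b f) : Van v a f := by
  rw [van_iff] at *
  exact le_trans (by exact_mod_cast hab) hf

theorem van_of_mul {K : Type} [Field K] {v : Fin 3 → K} {a b : ℕ} {f g : MvPolynomial (Fin 3) K}
    (hf : Ord v a f) (hg : Van v (a + b) (f * g)) : Van v b g := by
  rw [ord_iff] at hf
  rw [van_iff] at *
  rw [od_mul, hf] at hg
  push_cast at hg
  exact (ENat.add_le_add_iff_left (by simp)).1 hg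

theorem ord_mul {K : Type} [Field K] {v : Fin 3 → K} {a b : ℕ} {f g : MvPolynomial (Fin 3) K}
    (hf : Ord v a f) (hg : Ord v b g) : Ord v (a + b) (f * g) := by
  rw [ord_iff] at *
  rw [od_mul, hf, hg]
  push_cast
  rfl

theorem ord_unique {K : Type} [Field K] {v : Fin 3 → K} {a b : ℕ} {f : MvPolynomial (Fin 3) K}
    (hf : Ord v a f) (hg : Ord v b f) : a = b := by
  rw [ord_iff] at *
  rw [hf] at hg
  exact_mod_cast hg

/-- The translation matrix. -/
def trm {K : Type} [Field K] (a : Fin 2 → K) : Matrix (Fin 3) (Fin 3) K :=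
  !![1, 0, a 0; 0, 1, a 1; 0, 0, 1]

theorem trm_det {K : Type} [Field K] (a : Fin 2 → K) : (trm a).det = 1 := by
  simp [trm, Matrix.det_fin_three]

theorem trm_bs {K : Type} [Field K] (a : Fin 2 → K) : (trm a).mulVec (bs 2) = aff a := by
  funext r
  simp only [bs, Matrix.mulVec_single_one]
  fin_cases r <;> simp [trm, aff, Matrix.col]

/-- The multiplicity is at most the degree. -/
theorem van_le {K : Type} [Field K] {a : Fin 2 → K} {m e : ℕ} {f : MvPolynomial (Fin 3) K}
    (hf0 : f ≠ 0) (hf : f.IsHomogeneous e) (h : Van (aff a) m f) : m ≤ e := by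
  obtain ⟨hL, -⟩ := t_lin K
  have hd : (trm a).det ≠ 0 := by rw [trm_det]; exact one_ne_zero
  obtain ⟨h1, -, h3, -⟩ := hL (trm a) hd
  have h4 := h1 f e hf
  have h5 : Van (bs 2) m (lin (trm a) f) := by
    rw [← h3, trm_bs]
    exact h
  have h6 : lin (trm a) f ≠ 0 := by
    intro h7
    have h8 : ∀ n : ℕ, Van (aff a) n f := by
      intro n
      rw [← trm_bs, h3, h7]
      unfold Van
      exact Submodule.zero_mem _
    have h9 : od (aff a) f = ⊤ := by
      rw [ENat.eq_top_iff_forall_ge]
      intro n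
      exact (van_iff _ _ _).1 (h8 n)
    unfold od at h9
    rw [MvPowerSeries.order_eq_top_iff] at h9
    have h10 : shift (n := 2) (aff a) f = 0 := by
      have : ((shift (n := 2) (aff a) f : MvPolynomial (Fin 3) K) : MvPowerSeries (Fin 3) K) =
        ((0 : MvPolynomial (Fin 3) K) : MvPowerSeries (Fin 3) K) := by
        rw [h9, MvPolynomial.coe_zero]
      exact MvPolynomial.coe_injective _ _ this
    have h11 := shift_shift (n := 2) (aff a) f
    rw [h10, map_zero] at h11
    exact hf0 h11.symm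
  obtain ⟨b, hb⟩ := MvPolynomial.support_nonempty.2 h6
  have h7 := exponent_le (n := 2) h4 2 h5 hb
  omega

theorem lin_form {K : Type} [Field K] {G : MvPolynomial (Fin 3) K} (hG : G.IsHomogeneous 1) :
    G = ∑ l : Fin 3, C (G.coeff (Finsupp.single l 1)) * X l := by
  classical
  ext a
  rw [MvPolynomial.coeff_sum]
  have h0 : ∀ l : Fin 3, coeff a (C (G.coeff (Finsupp.single l 1)) * X l : MvPolynomial (Fin 3) K) =
      if Finsupp.single l 1 = a then G.coeff (Finsupp.single l 1) else 0 := by
    intro l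
    rw [coeff_C_mul, coeff_X]
    split_ifs <;> simp
  simp only [h0]
  by_cases ha : a.degree = 1
  · have ha' : a ∈ Set.range (fun a : Fin 3 ↦ Finsupp.single a 1) := by
      rw [Finsupp.range_single_one]
      exact ha
    obtain ⟨l, hl⟩ := ha'
    simp only at hl
    subst hl
    rw [Finset.sum_eq_single l]
    · simp
    · intro b _ hb
      rw [if_neg]
      intro h
      exact hb (Finsupp.single_left_injective one_ne_zero h)
    · simp
  · have h1 : G.coeff a = 0 := by
      by_contra hne
      have h4 := hG hne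
      exact ha (by rw [Finsupp.degree_eq_weight_one]; exact h4)
    rw [h1]
    symm
    refine Finset.sum_eq_zero fun l _ => ?_
    rw [if_neg]
    rintro rfl
    exact ha (by simp)

theorem pd_mem {K : Type} [Field K] {v : Fin 3 → K} {G : MvPolynomial (Fin 3) K}
   (h : G ∈ (RingHom.ker (MvPolynomial.eval v)) ^ 2) (l : Fin 3) : eval v (pderiv l G) = 0 := by
  rw [pow_two] at h
  refine Submodule.mul_induction_on h ?_ ?_
  · intro a ha b hb
    rw [RingHom.mem_ker] at ha hb
    rw [Derivation.leibniz]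
    simp [ha, hb]
  · intro a b ha hb
    rw [map_add, map_add, ha, hb, add_zero]

theorem line_mult {K : Type} [Field K] {v : Fin 3 → K} {G : MvPolynomial (Fin 3) K}
    (hG0 : G ≠ 0) (hG : G.IsHomogeneous 1) (h : Van v 2 G) : False := by
  classical
  refine hG0 ?_
  have h1 : ∀ l : Fin 3, G.coeff (Finsupp.single l 1) = 0 := by
    intro l
    have h2 := pd_mem h l
    rw [lin_form hG] at h2
    simp only [map_sum, Derivation.leibniz, pderiv_C, pderiv_X, smul_eq_mul, mul_zero, add_zero, map_mul, eval_C] at h2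
    rw [Finset.sum_eq_single l] at h2
    · simpa using h2
    · intro b _ hb
      simp [hb]
    · simp
  rw [lin_form hG]
  simp [h1]

theorem van_one {K : Type} [Field K] (v : Fin 3 → K) (f : MvPolynomial (Fin 3) K) :
    Van v 1 f ↔ MvPolynomial.eval v f = 0 := by
  unfold Van
  rw [pow_one, RingHom.mem_ker]

theorem eval_lin {K : Type} [Field K] {G : MvPolynomial (Fin 3) K} (hG : G.IsHomogeneous 1)
    (v : Fin 3 → K) : MvPolynomial.eval v G = ∑ l, G.coeff (Finsupp.single l 1) * v l := by
  conv_lhs => rw [lin_form hG]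
  simp

/-- A line has at most two of the points. -/
theorem line_two {K : Type} [Field K] [CharZero K] {s : ℕ} {P : Fin s → Fin 2 → K}
    (hP : AlgebraicIndependent ℚ (fun ij : Fin s × Fin 2 => P ij.1 ij.2))
    {G : MvPolynomial (Fin 3) K} (hG0 : G ≠ 0) (hG : G.IsHomogeneous 1)
    (i : Fin 3 → Fin s) (hi : Function.Injective i)
    (h : ∀ k, Van (aff (P (i k))) 1 G) : False := by
  obtain ⟨hdet, -⟩ := t_gen K s P hP i hi
  have h2 : (mat3 P i).transpose.mulVec (fun l => G.coeff (Finsupp.single l 1)) = 0 := by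
    funext k
    have h3 := h k
    rw [van_one, eval_lin hG] at h3
    have h4 : (mat3 P i).transpose.mulVec (fun l => G.coeff (Finsupp.single l 1)) k =
        ∑ l, aff (P (i k)) l * G.coeff (Finsupp.single l 1) := rfl
    rw [Pi.zero_apply, ← h3, h4]
    exact Finset.sum_congr rfl fun l _ => mul_comm _ _
  have h3 : (fun l => G.coeff (Finsupp.single l 1)) = 0 := by
    refine Matrix.eq_zero_of_mulVec_eq_zero (M := (mat3 P i).transpose) ?_ h2
    rw [Matrix.det_transpose]
    exact hdet
  refine hG0 ?_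
  rw [lin_form hG]
  refine Finset.sum_eq_zero fun l _ => ?_
  rw [show G.coeff (Finsupp.single l 1) = 0 from congrFun h3 l, map_zero, zero_mul]

/-- The linear form through two points. -/
noncomputable def ln {K : Type} [Field K] (a b : Fin 2 → K) : MvPolynomial (Fin 3) K :=
  C (a 1 - b 1) * X 0 + C (b 0 - a 0) * X 1 + C (a 0 * b 1 - a 1 * b 0) * X 2

theorem ln_hom {K : Type} [Field K] (a b : Fin 2 → K) : (ln a b).IsHomogeneous 1 := by
  unfold ln
  refine ((IsHomogeneous.C_mul (isHomogeneous_X _ _) _).add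
    (IsHomogeneous.C_mul (isHomogeneous_X _ _) _)).add
    (IsHomogeneous.C_mul (isHomogeneous_X _ _) _)

theorem ln_coeff {K : Type} [Field K] (a b : Fin 2 → K) :
    (ln a b).coeff (Finsupp.single 0 1) = a 1 - b 1 ∧
    (ln a b).coeff (Finsupp.single 1 1) = b 0 - a 0 := by
  classical
  unfold ln
  constructor
  · simp only [coeff_add, coeff_C_mul, coeff_X]
    simp [Finsupp.single_left_inj]
  · simp only [coeff_add, coeff_C_mul, coeff_X]
    simp [Finsupp.single_left_inj]

theorem ln_ne {K : Type} [Field K] {a b : Fin 2 → K} (h : a ≠ b) : ln a b ≠ 0 := by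
  intro h0
  obtain ⟨h1, h2⟩ := ln_coeff a b
  rw [h0, MvPolynomial.coeff_zero] at h1 h2
  apply h
  funext k
  fin_cases k
  · exact (sub_eq_zero.1 h2.symm).symm
  · exact sub_eq_zero.1 h1.symm

theorem ln_irr {K : Type} [Field K] {a b : Fin 2 → K} (h : a ≠ b) : Irreducible (ln a b) := by
  apply irreducible_of_totalDegree_eq_one
  · exact (ln_hom a b).totalDegree (ln_ne h)
  · intro x hx
    obtain ⟨c, hc⟩ := MvPolynomial.ne_zero_iff.1 (ln_ne h)
    have h1 := hx c
    refine isUnit_iff_ne_zero.2 fun h2 => hc ?_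
    rw [h2, zero_dvd_iff] at h1
    exact h1

theorem ln_left {K : Type} [Field K] (a b : Fin 2 → K) : Van (aff a) 1 (ln a b) := by
  rw [van_one]
  simp [ln, aff]
  ring

theorem ln_right {K : Type} [Field K] (a b : Fin 2 → K) : Van (aff b) 1 (ln a b) := by
  rw [van_one]
  simp [ln, aff]
  ring

/-- The inequality of Bezout. -/
theorem bez {K : Type} [Field K] {s : ℕ} {P : Fin s → Fin 2 → K} (hP : Function.Injective P)
    {u w : Fin s → ℕ} {G F : MvPolynomial (Fin 3) K} {e d : ℕ} (hG : Irreducible G)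
    (hGe : G.IsHomogeneous e) (hu : ∀ j, Van (aff (P j)) (u j) G) (hF0 : F ≠ 0)
    (hFd : F.IsHomogeneous d) (hw : ∀ j, Van (aff (P j)) (w j) F) (hnd : ¬ G ∣ F) :
    ∑ j, u j * w j ≤ e * d := by
  classical
  let p : Fin s → Pool.Agent.Chud.PP K 2 := fun j => Projectivization.mk K (aff (P j)) (aff_ne _)
  have hp : Function.Injective p := by
    intro i j hij
    have h1 := (Projectivization.mk_eq_mk_iff' K _ _ (aff_ne (P i)) (aff_ne (P j))).1 hij
    obtain ⟨c, hc⟩ := h1
    have h2 := congrFun hc 2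
    have h3 : c = 1 := by simpa [aff] using h2
    rw [h3, one_smul] at hc
    refine hP (funext fun l => ?_)
    fin_cases l
    · have := congrFun hc 0
      simpa [aff] using this.symm
    · have := congrFun hc 1
      simpa [aff] using this.symm
  let r : (Fin s → ℕ) → Pool.Agent.Chud.PP K 2 → ℕ := fun w q =>
    if h : ∃ j, p j = q then w h.choose else 0
  have hr : ∀ (w : Fin s → ℕ) j, r w (p j) = w j := by
    intro w j
    have h : ∃ i, p i = p j := ⟨j, rfl⟩
    show (if h : ∃ i, p i = p j then w h.choose else 0) = w j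
    rw [dif_pos h]
    exact congrArg w (hp h.choose_spec)
  have hvan : ∀ (f : MvPolynomial (Fin 3) K) (n : ℕ), f.IsHomogeneous n → ∀ j (m : ℕ),
      Van (aff (P j)) m f → f ∈ Pool.Agent.Chud.mI (p j).rep ^ m := by
    intro f n hf j m hj
    obtain ⟨c, hc⟩ := Projectivization.exists_smul_eq_mk_rep K (aff (P j)) (aff_ne _)
    have h1 := ((t_lin K).2 f n hf (c : K) c.ne_zero (aff (P j)) m).2 hj
    have h2 : (c : K) • aff (P j) = (p j).rep := hc
    rw [h2] at h1
    exact h1
  have hrel : IsRelPrime G F := (Irreducible.isRelPrime_iff_not_dvd hG).2 hnd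
  have hb := Pool.Agent.Chud.bezout hGe hFd hG.ne_zero hF0 hrel (Finset.univ.image p) (r u) (r w)
    (by
      intro q hq
      obtain ⟨j, _, rfl⟩ := Finset.mem_image.1 hq
      rw [hr]
      exact hvan G e hGe j _ (hu j)) (by
      intro q hq
      obtain ⟨j, _, rfl⟩ := Finset.mem_image.1 hq
      rw [hr]
      exact hvan F d hFd j _ (hw j))
  rw [Finset.sum_image (fun a _ b _ h => hp h)] at hb
  simp only [hr] at hb
  exact hb

end Pool.Agent.TH167.SH
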