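import Pool.Agent.H15.G.R_seed8.TH167.SH.Spread

set_option autoImplicit false

/-!
# The Harbourne-Hirschowitz statement for general points
-/

namespace Pool.Agent.TH167.SH

open MvPolynomial Pool.Agent.W609 Pool.Agent.W609.CR

/-- The Euler characteristic. -/
def chi {s : ℕ} (d : ℕ) (w : Fin s → ℕ) : ℤ :=
  ((d + 2).choose 2 : ℤ) - ∑ j, ((w j + 1).choose 2 : ℤ)

theorem two_chi {s : ℕ} (d : ℕ) (w : Fin s → ℕ) :
    2 * chi d w = ip d w d w + kk d w + 2 := by
  unfold chi ip kk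
  have h1 : (2 : ℤ) * ((d + 2).choose 2 : ℤ) = ((d : ℤ) + 1) * (d + 2) := by
    have := H932R7.two_choose d
    exact_mod_cast this
  have h2 : ∀ j, (2 : ℤ) * ((w j + 1).choose 2 : ℤ) = (w j : ℤ) * w j + w j := by
    intro j
    have h3 := Pool.Agent.H932R7.R4h.two_choose (w j)
    have h4 : ((2 * (w j + 1).choose 2 : ℕ) : ℤ) = ((w j * (w j + 1) : ℕ) : ℤ) := by
      rw [h3]
    push_cast at h4
    rw [h4]
    ring
  rw [mul_sub, h1, Finset.mul_sum, Finset.sum_congr rfl fun j _ => h2 j, Finset.sum_add_distrib]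
  ring

theorem quad_inv {s : ℕ} {a b : ℕ × (Fin s → ℕ)} (h : Relation.ReflTransGen Quad a b) :
    chi b.1 b.2 = chi a.1 a.2 ∧ kk b.1 b.2 = kk a.1 a.2 ∧
      ip b.1 b.2 b.1 b.2 = ip a.1 a.2 a.1 a.2 := by
  induction h with
  | refl => exact ⟨rfl, rfl, rfl⟩
  | @tail b c _ h ih =>
    obtain ⟨i, hi, p, rfl⟩ := h
    have h1 := ip_cr hi p p
    have h2 := kk_cr hi p
    refine ⟨?_, by rw [← ih.2.1]; exact h2, by rw [← ih.2.2]; exact h1⟩
    rw [← ih.1]
    have h3 := two_chi (cd i b.1 b.2) (wcr b.1 i b.2)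
    rw [h1, h2, ← two_chi] at h3
    exact mul_left_cancel₀ two_ne_zero h3

/-- A decomposition, without the condition of nefness. -/
structure Dcp {K : Type} [Field K] {s : ℕ} (P : Fin s → Fin 2 → K) (d : ℕ) (w : Fin s → ℕ)
    (d' : ℕ) (w' : Fin s → ℕ) {k : ℕ} (C : Fin k → MvPolynomial (Fin 3) K) (e : Fin k → ℕ)
    (u : Fin k → Fin s → ℕ) (N : Fin k → ℕ) : Prop where
  exc : ∀ a, Exc P (C a) (e a) (u a)
  pos : ∀ a, 0 < N a
  orth : ∀ a b, a ≠ b → ip (e a) (u a) (e b) (u b) = 0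
  deg : d = d' + ∑ a, N a * e a
  mul : ∀ j, w j = w' j + ∑ a, N a * u a j
  zero : ∀ a, ip d' w' (e a) (u a) = 0

theorem Dcp.ip_eq {K : Type} [Field K] {s : ℕ} {P : Fin s → Fin 2 → K} {d : ℕ} {w : Fin s → ℕ}
    {d' : ℕ} {w' : Fin s → ℕ} {k : ℕ} {C : Fin k → MvPolynomial (Fin 3) K} {e : Fin k → ℕ}
    {u : Fin k → Fin s → ℕ} {N : Fin k → ℕ} (h : Dcp P d w d' w' C e u N) (f : ℕ)
    (v : Fin s → ℕ) : ip d w f v = ip d' w' f v + ∑ a, (N a : ℤ) * ip (e a) (u a) f v := by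
  unfold ip
  have h1 : ∀ j, (w j : ℤ) * v j = (w' j : ℤ) * v j + ∑ a, (N a : ℤ) * ((u a j : ℤ) * v j) := by
    intro j
    rw [h.mul j]
    push_cast
    rw [add_mul, Finset.sum_mul]
    congr 1
    exact Finset.sum_congr rfl fun a _ => by ring
  rw [Finset.sum_congr rfl fun j _ => h1 j, Finset.sum_add_distrib, Finset.sum_comm]
  have h2 : ∑ a, (N a : ℤ) * ((e a : ℤ) * f - ∑ j, (u a j : ℤ) * v j) =
      ∑ a, (N a : ℤ) * (e a : ℤ) * f - ∑ a, ∑ j, (N a : ℤ) * ((u a j : ℤ) * v j) := by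
    rw [← Finset.sum_sub_distrib]
    refine Finset.sum_congr rfl fun a _ => ?_
    rw [mul_sub, Finset.mul_sum]
    ring
  rw [h2, h.deg]
  push_cast
  rw [add_mul, Finset.sum_mul]
  ring

theorem Dcp.neg {K : Type} [Field K] {s : ℕ} {P : Fin s → Fin 2 → K} {d : ℕ} {w : Fin s → ℕ}
    {d' : ℕ} {w' : Fin s → ℕ} {k : ℕ} {C : Fin k → MvPolynomial (Fin 3) K} {e : Fin k → ℕ}
    {u : Fin k → Fin s → ℕ} {N : Fin k → ℕ} (h : Dcp P d w d' w' C e u N) (a : Fin k) :
    ip d w (e a) (u a) = - (N a : ℤ) := by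
  rw [h.ip_eq, h.zero a, Finset.sum_eq_single a]
  · have := (self_iff.1 (h.exc a).self)
    rw [this]
    ring
  · intro b _ hb
    rw [h.orth b a hb, mul_zero]
  · intro h1
    exact absurd (Finset.mem_univ a) h1

theorem Dcp.kk_eq {K : Type} [Field K] {s : ℕ} {P : Fin s → Fin 2 → K} {d : ℕ} {w : Fin s → ℕ}
    {d' : ℕ} {w' : Fin s → ℕ} {k : ℕ} {C : Fin k → MvPolynomial (Fin 3) K} {e : Fin k → ℕ}
    {u : Fin k → Fin s → ℕ} {N : Fin k → ℕ} (h : Dcp P d w d' w' C e u N) :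
    kk d w = kk d' w' + ∑ a, (N a : ℤ) := by
  have h0 : ∀ a, (N a : ℤ) = (N a : ℤ) * kk (e a) (u a) := by
    intro a
    rw [can_iff.1 (h.exc a).can, mul_one]
  rw [Finset.sum_congr rfl fun a _ => h0 a]
  unfold kk
  have h1 : ∀ j, (w j : ℤ) = (w' j : ℤ) + ∑ a, (N a : ℤ) * (u a j : ℤ) := by
    intro j
    rw [h.mul j]
    push_cast
    rfl
  rw [Finset.sum_congr rfl fun j _ => h1 j, Finset.sum_add_distrib, Finset.sum_comm]
  have h2 : ∑ a, (N a : ℤ) * (3 * (e a : ℤ) - ∑ j, (u a j : ℤ)) =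
      3 * ∑ a, (N a : ℤ) * (e a : ℤ) - ∑ a, ∑ j, (N a : ℤ) * (u a j : ℤ) := by
    rw [Finset.mul_sum, ← Finset.sum_sub_distrib]
    refine Finset.sum_congr rfl fun a _ => ?_
    rw [mul_sub, Finset.mul_sum]
    ring
  rw [h2, h.deg]
  push_cast
  ring

theorem Dcp.self_eq {K : Type} [Field K] {s : ℕ} {P : Fin s → Fin 2 → K} {d : ℕ} {w : Fin s → ℕ}
    {d' : ℕ} {w' : Fin s → ℕ} {k : ℕ} {C : Fin k → MvPolynomial (Fin 3) K} {e : Fin k → ℕ}
    {u : Fin k → Fin s → ℕ} {N : Fin k → ℕ} (h : Dcp P d w d' w' C e u N) :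
    ip d w d w = ip d' w' d' w' - ∑ a, (N a : ℤ) ^ 2 := by
  have h1 : ip d' w' d w = ip d' w' d' w' := by
    rw [ip_comm, h.ip_eq, Finset.sum_eq_zero]
    · ring
    · intro a _
      rw [ip_comm, h.zero a, mul_zero]
  rw [h.ip_eq d w, h1]
  have h2 : ∀ a, (N a : ℤ) * ip (e a) (u a) d w = - (N a : ℤ) ^ 2 := by
    intro a
    rw [ip_comm, h.neg a]
    ring
  rw [Finset.sum_congr rfl fun a _ => h2 a, Finset.sum_neg_distrib]
  ring

theorem Dcp.chi_eq {K : Type} [Field K] {s : ℕ} {P : Fin s → Fin 2 → K} {d : ℕ} {w : Fin s → ℕ}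
    {d' : ℕ} {w' : Fin s → ℕ} {k : ℕ} {C : Fin k → MvPolynomial (Fin 3) K} {e : Fin k → ℕ}
    {u : Fin k → Fin s → ℕ} {N : Fin k → ℕ} (h : Dcp P d w d' w' C e u N) :
    2 * chi d' w' = 2 * chi d w + ∑ a, (N a : ℤ) * ((N a : ℤ) - 1) := by
  rw [two_chi, two_chi, h.self_eq, h.kk_eq]
  have h1 : ∀ a, (N a : ℤ) * ((N a : ℤ) - 1) = (N a : ℤ) ^ 2 - (N a : ℤ) := fun a => by ring
  rw [Finset.sum_congr rfl fun a _ => h1 a, Finset.sum_sub_distrib]
  ring

theorem Dcp.nn {k : ℕ} (N : Fin k → ℕ) (a : Fin k) : 0 ≤ (N a : ℤ) * ((N a : ℤ) - 1) := by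
  rcases Nat.eq_zero_or_pos (N a) with h | h
  · rw [h]
    simp
  · exact mul_nonneg (Int.natCast_nonneg _) (by omega)

theorem Dcp.chi_le {K : Type} [Field K] {s : ℕ} {P : Fin s → Fin 2 → K} {d : ℕ} {w : Fin s → ℕ}
    {d' : ℕ} {w' : Fin s → ℕ} {k : ℕ} {C : Fin k → MvPolynomial (Fin 3) K} {e : Fin k → ℕ}
    {u : Fin k → Fin s → ℕ} {N : Fin k → ℕ} (h : Dcp P d w d' w' C e u N) :
    chi d w ≤ chi d' w' := by
  have h1 := h.chi_eq
  have h2 : 0 ≤ ∑ a, (N a : ℤ) * ((N a : ℤ) - 1) := Finset.sum_nonneg fun a _ => Dcp.nn N a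
  omega

theorem Dcp.chi_lt {K : Type} [Field K] {s : ℕ} {P : Fin s → Fin 2 → K} {d : ℕ} {w : Fin s → ℕ}
    {d' : ℕ} {w' : Fin s → ℕ} {k : ℕ} {C : Fin k → MvPolynomial (Fin 3) K} {e : Fin k → ℕ}
    {u : Fin k → Fin s → ℕ} {N : Fin k → ℕ} (h : Dcp P d w d' w' C e u N) {a : Fin k}
    (ha : 2 ≤ N a) : chi d w < chi d' w' := by
  have h1 := h.chi_eq
  have h2 : (N a : ℤ) * ((N a : ℤ) - 1) ≤ ∑ a, (N a : ℤ) * ((N a : ℤ) - 1) :=
    Finset.single_le_sum (f := fun a => (N a : ℤ) * ((N a : ℤ) - 1)) (fun a _ => Dcp.nn N a)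
      (Finset.mem_univ a)
  have h3 : 2 ≤ (N a : ℤ) * ((N a : ℤ) - 1) := by
    have h4 : (2 : ℤ) ≤ N a := by exact_mod_cast ha
    nlinarith
  omega

theorem Dcp.chi_one {K : Type} [Field K] {s : ℕ} {P : Fin s → Fin 2 → K} {d : ℕ} {w : Fin s → ℕ}
    {d' : ℕ} {w' : Fin s → ℕ} {k : ℕ} {C : Fin k → MvPolynomial (Fin 3) K} {e : Fin k → ℕ}
    {u : Fin k → Fin s → ℕ} {N : Fin k → ℕ} (h : Dcp P d w d' w' C e u N)
    (ha : ∀ a, N a < 2) : chi d w = chi d' w' := by
  have h1 := h.chi_eq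
  have h2 : ∑ a, (N a : ℤ) * ((N a : ℤ) - 1) = 0 := by
    refine Finset.sum_eq_zero fun a _ => ?_
    have h3 := h.pos a
    have h4 := ha a
    have h5 : N a = 1 := by omega
    rw [h5]
    norm_num
  omega

/-- The product of the curves. -/
noncomputable def Pr {K : Type} [Field K] {k : ℕ} (C : Fin k → MvPolynomial (Fin 3) K)
    (N : Fin k → ℕ) : MvPolynomial (Fin 3) K := ∏ a, C a ^ N a

theorem van_pow {K : Type} [Field K] {v : Fin 3 → K} {m : ℕ} {f : MvPolynomial (Fin 3) K}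
    (h : Van v m f) (n : ℕ) : Van v (n * m) (f ^ n) := by
  unfold Van at *
  rw [mul_comm, pow_mul]
  exact Ideal.pow_mem_pow h n

theorem Dcp.prod_van {K : Type} [Field K] {s : ℕ} {P : Fin s → Fin 2 → K} {d : ℕ} {w : Fin s → ℕ}
    {d' : ℕ} {w' : Fin s → ℕ} {k : ℕ} {C : Fin k → MvPolynomial (Fin 3) K} {e : Fin k → ℕ}
    {u : Fin k → Fin s → ℕ} {N : Fin k → ℕ} (h : Dcp P d w d' w' C e u N) (j : Fin s) :
    Van (aff (P j)) (∑ a, N a * u a j) (Pr C N) := by
  classical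
  unfold Pr
  have key : ∀ S : Finset (Fin k), Van (aff (P j)) (∑ a ∈ S, N a * u a j) (∏ a ∈ S, C a ^ N a) := by
    intro S
    induction S using Finset.induction_on with
    | empty =>
      rw [Finset.sum_empty]
      exact van_zero _ _
    | insert a S ha ih =>
      rw [Finset.sum_insert ha, Finset.prod_insert ha]
      exact van_mul (van_pow ((h.exc a).ord j).1 _) ih
  exact key Finset.univ

theorem Dcp.prod_ne {K : Type} [Field K] {s : ℕ} {P : Fin s → Fin 2 → K} {d : ℕ} {w : Fin s → ℕ}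
    {d' : ℕ} {w' : Fin s → ℕ} {k : ℕ} {C : Fin k → MvPolynomial (Fin 3) K} {e : Fin k → ℕ}
    {u : Fin k → Fin s → ℕ} {N : Fin k → ℕ} (h : Dcp P d w d' w' C e u N) : Pr C N ≠ 0 := by
  unfold Pr
  exact Finset.prod_ne_zero_iff.2 fun a _ => pow_ne_zero _ (h.exc a).irr.ne_zero

theorem Dcp.map_le {K : Type} [Field K] {s : ℕ} {P : Fin s → Fin 2 → K} {d : ℕ} {w : Fin s → ℕ}
    {d' : ℕ} {w' : Fin s → ℕ} {k : ℕ} {C : Fin k → MvPolynomial (Fin 3) K} {e : Fin k → ℕ}
    {u : Fin k → Fin s → ℕ} {N : Fin k → ℕ} (h : Dcp P d w d' w' C e u N) :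
    Submodule.map (LinearMap.mulLeft K (Pr C N)) (VS (fun j => aff (P j)) w' d') ≤
      VS (fun j => aff (P j)) w d := by
  rintro _ ⟨g, hg, rfl⟩
  have hg' : g ∈ VS (fun j => aff (P j)) w' d' := hg
  rw [mem_VS] at hg' ⊢
  rw [LinearMap.mulLeft_apply]
  constructor
  · have h1 : (Pr C N).IsHomogeneous (∑ a, N a * e a) := by
      unfold Pr
      refine IsHomogeneous.prod _ _ _ fun a _ => ?_
      rw [mul_comm]
      exact (h.exc a).hom.pow _
    rw [h.deg, add_comm]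
    exact h1.mul hg'.1
  · intro j
    rw [h.mul j, add_comm]
    exact van_mul (h.prod_van j) (hg'.2 j)

theorem Dcp.map_finrank {K : Type} [Field K] {s : ℕ} {P : Fin s → Fin 2 → K} {d : ℕ}
    {w : Fin s → ℕ}
    {d' : ℕ} {w' : Fin s → ℕ} {k : ℕ} {C : Fin k → MvPolynomial (Fin 3) K} {e : Fin k → ℕ}
    {u : Fin k → Fin s → ℕ} {N : Fin k → ℕ} (h : Dcp P d w d' w' C e u N) :
    Module.finrank K ↥(Submodule.map (LinearMap.mulLeft K (Pr C N))
      (VS (fun j => aff (P j)) w' d')) = Module.finrank K ↥(VS (fun j => aff (P j)) w' d') := by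
  have hinj : Function.Injective (LinearMap.mulLeft K (Pr C N)) := by
    intro a b hab
    rw [LinearMap.mulLeft_apply, LinearMap.mulLeft_apply] at hab
    exact mul_left_cancel₀ h.prod_ne hab
  exact (LinearEquiv.finrank_eq (Submodule.equivMapOfInjective _ hinj _)).symm

theorem Dcp.finrank_le {K : Type} [Field K] {s : ℕ} {P : Fin s → Fin 2 → K} {d : ℕ}
    {w : Fin s → ℕ}
    {d' : ℕ} {w' : Fin s → ℕ} {k : ℕ} {C : Fin k → MvPolynomial (Fin 3) K} {e : Fin k → ℕ}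
    {u : Fin k → Fin s → ℕ} {N : Fin k → ℕ} (h : Dcp P d w d' w' C e u N) :
    Module.finrank K ↥(VS (fun j => aff (P j)) w' d') ≤
      Module.finrank K ↥(VS (fun j => aff (P j)) w d) := by
  rw [← h.map_finrank]
  have hf := vs_fin (fun j => aff (P j)) w d
  exact Submodule.finrank_mono h.map_le

/-- All curves of the system contain the fixed part. -/
theorem Dcp.dvd {K : Type} [Field K] {s : ℕ} {P : Fin s → Fin 2 → K} {d : ℕ} {w : Fin s → ℕ}
    {d' : ℕ} {w' : Fin s → ℕ} {k : ℕ} {C : Fin k → MvPolynomial (Fin 3) K} {e : Fin k → ℕ}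
    {u : Fin k → Fin s → ℕ} {N : Fin k → ℕ} (h : Dcp P d w d' w' C e u N)
    (hf : Module.finrank K ↥(VS (fun j => aff (P j)) w d) =
      Module.finrank K ↥(VS (fun j => aff (P j)) w' d')) {f : MvPolynomial (Fin 3) K}
    (hfm : f ∈ VS (fun j => aff (P j)) w d) : Pr C N ∣ f := by
  have hfin := vs_fin (fun j => aff (P j)) w d
  have h1 := Submodule.eq_of_le_of_finrank_eq h.map_le (by rw [h.map_finrank, hf])
  rw [← h1] at hfm
  obtain ⟨g, _, rfl⟩ := hfm
  exact ⟨g, rfl⟩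

theorem chi_le_dim {K : Type} [Field K] {s : ℕ} (P : Fin s → Fin 2 → K) (d : ℕ)
    (w : Fin s → ℕ) : chi d w ≤ (Module.finrank K ↥(VS (fun j => aff (P j)) w d) : ℤ) := by
  have h := le_dim w P d
  rw [← vs_eq_forms] at h
  unfold chi
  have h1 : (∑ j, ((w j + 1).choose 2 : ℤ)) = ((∑ j, (w j + 1).choose 2 : ℕ) : ℤ) := by
    push_cast
    rfl
  rw [h1]
  have h2 : (((d + 2).choose 2 : ℕ) : ℤ) ≤
    ((Module.finrank K ↥(VS (fun j => aff (P j)) w d) + ∑ j, (w j + 1).choose 2 : ℕ) : ℤ) := by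
    exact_mod_cast h
  push_cast at h2 ⊢
  linarith

/-- The system is special. -/
def Special {K : Type} [Field K] {s : ℕ} (P : Fin s → Fin 2 → K) (d : ℕ) (w : Fin s → ℕ) : Prop :=
  (Module.finrank K ↥(VS (fun j => aff (P j)) w d) : ℤ) ≠ max 0 (chi d w)

theorem special_iff {K : Type} [Field K] {s : ℕ} (P : Fin s → Fin 2 → K) (d : ℕ)
    (w : Fin s → ℕ) : Special P d w ↔
      (0 < Module.finrank K ↥(VS (fun j => aff (P j)) w d) ∧
        chi d w < (Module.finrank K ↥(VS (fun j => aff (P j)) w d) : ℤ)) := by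
  have h := chi_le_dim P d w
  unfold Special
  constructor
  · intro h1
    rcases le_total (chi d w) 0 with h2 | h2
    · rw [max_eq_left h2] at h1
      have h3 : 0 < Module.finrank K ↥(VS (fun j => aff (P j)) w d) := by
        rcases Nat.eq_zero_or_pos (Module.finrank K ↥(VS (fun j => aff (P j)) w d)) with h3 | h3
        · exact absurd (by rw [h3]; rfl) h1
        · exact h3
      refine ⟨h3, ?_⟩
      omega
    · rw [max_eq_right h2] at h1
      constructor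
      · omega
      · omega
  · rintro ⟨h1, h2⟩ h3
    rcases le_total (chi d w) 0 with h4 | h4
    · rw [max_eq_left h4] at h3
      omega
    · rw [max_eq_right h4] at h3
      omega

/-- The system is `(-1)`-special. -/
def MSpecial {K : Type} [Field K] {s : ℕ} (P : Fin s → Fin 2 → K) (d : ℕ) (w : Fin s → ℕ) :
    Prop :=
  ∃ (d' : ℕ) (w' : Fin s → ℕ) (k : ℕ) (C : Fin k → MvPolynomial (Fin 3) K)
    (e : Fin k → ℕ) (u : Fin k → Fin s → ℕ) (N : Fin k → ℕ),
    Dcp P d w d' w' C e u N ∧ 1 ≤ chi d' w' ∧ ∃ a, 2 ≤ N a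

theorem MSpecial.special {K : Type} [Field K] {s : ℕ} {P : Fin s → Fin 2 → K} {d : ℕ}
    {w : Fin s → ℕ} (h : MSpecial P d w) : Special P d w := by
  obtain ⟨d', w', k, C, e, u, N, hD, h1, a, ha⟩ := h
  have h2 := hD.chi_lt ha
  have h3 := hD.finrank_le
  have h4 := chi_le_dim P d' w'
  rw [special_iff]
  constructor <;> omega

/-- The finite list of possible exceptions. -/
def Small {K : Type} [Field K] {s : ℕ} (B : ℕ) (P : Fin s → Fin 2 → K) (d : ℕ) (w : Fin s → ℕ) :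
    Prop :=
  ∃ (d' : ℕ) (w' : Fin s → ℕ) (k : ℕ) (C : Fin k → MvPolynomial (Fin 3) K)
    (e : Fin k → ℕ) (u : Fin k → Fin s → ℕ) (N : Fin k → ℕ) (d1 : ℕ) (w1 : Fin s → ℕ),
    Dcp P d w d' w' C e u N ∧ Relation.ReflTransGen Quad (d', w') (d1, w1) ∧ Reduced d1 w1 ∧
    d1 < B ∧ (Finset.univ.filter fun j => w1 j ≠ 0).card < B + 3 ∧
    Module.finrank K ↥(VS (fun j => aff (P j)) w' d') =
      Module.finrank K ↥(VS (fun j => aff (P j)) w d) ∧
    Module.finrank K ↥(VS (fun j => aff (P j)) w1 d1) =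
      Module.finrank K ↥(VS (fun j => aff (P j)) w d) ∧ Special P d1 w1

/-- The Harbourne-Hirschowitz statement. -/
theorem hh {r m B : ℕ} (hm : 0 < m) (hB : B = 131072 * (4 * m ^ 2 + 8 * m + 5) ^ 4)
    (d : ℕ) (w : Fin (r + 4) → ℕ) (hw : Few m d w) :
    ∃ F : MvPolynomial (Fin (r + 4) × Fin 2) ℚ, F ≠ 0 ∧ ∀ (K : Type) [Field K] [CharZero K]
      (P : Fin (r + 4) → Fin 2 → K), evP P F ≠ 0 → Special P d w →
        MSpecial P d w ∨ (Small B P d w ∧
          Module.finrank K ↥(VS (fun j => aff (P j)) w d) < B ∧ chi d w - kk d w < B) := by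
  classical
  obtain ⟨g, Fg, hFg, hg⟩ := dim_gen w d
  obtain ⟨K0, i1, i2, P0, hP0⟩ := exists_generic (r + 4)
  rcases Nat.eq_zero_or_pos g with hg0 | hg0
  · refine ⟨Fg, hFg, fun K _ _ P hP hs => ?_⟩
    exfalso
    rw [special_iff, hg K P hP, hg0] at hs
    omega
  · have hg1 := hg K0 P0 (evP_ne hP0 hFg)
    obtain ⟨d', w', k, C0, e, u, N, hD, hdim, P1, d1, w1, hP1, hchain, hfew, hred, hdim1⟩ :=
      main d P0 hP0 w hw (by rw [hg1]; exact hg0)
    obtain ⟨g', Fg', hFg', hg'⟩ := dim_gen w' d'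
    obtain ⟨g1, Fg1, hFg1, hg1'⟩ := dim_gen w1 d1
    have hge : g' = g := by
      rw [← hg' K0 P0 (evP_ne hP0 hFg'), hdim, hg1]
    have hg1e : g1 = g := by
      rw [← hg1' K0 P1 (evP_ne hP1 hFg1), hdim1, hdim, hg1]
    have hspr := fun a => exc_spread (e a) (u a) ⟨K0, i1, i2, P0, C0 a, hP0, hD.exc a⟩
    choose Fa hFa hFa' using hspr
    refine ⟨Fg * Fg' * Fg1 * ∏ a, Fa a, mul_ne_zero (mul_ne_zero (mul_ne_zero hFg hFg') hFg1)
      (Finset.prod_ne_zero_iff.2 fun a _ => hFa a), fun K _ _ P hP hs => ?_⟩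
    rw [map_mul, map_mul, map_mul, map_prod] at hP
    have q0 := hg K P (left_ne_zero_of_mul (left_ne_zero_of_mul (left_ne_zero_of_mul hP)))
    have q1 := hg' K P (right_ne_zero_of_mul (left_ne_zero_of_mul (left_ne_zero_of_mul hP)))
    have q2 := hg1' K P (right_ne_zero_of_mul (left_ne_zero_of_mul hP))
    have q3 := Finset.prod_ne_zero_iff.1 (right_ne_zero_of_mul hP)
    choose C hC using fun a => hFa' a K P (q3 a (Finset.mem_univ a))
    have hDcp : Dcp P d w d' w' C e u N := ⟨hC, hD.pos, hD.orth, hD.deg, hD.mul, hD.zero⟩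
    have hDcp0 : Dcp P0 d w d' w' C0 e u N := ⟨hD.exc, hD.pos, hD.orth, hD.deg, hD.mul, hD.zero⟩
    obtain ⟨c1, c2, c3⟩ := quad_inv hchain
    simp only at c1 c2 c3
    rw [special_iff, q0] at hs
    rcases red_case hm hB hP1 hfew hred with hns | ⟨b1, b2, b3, b4⟩
    · -- the residual system is non-special
      left
      have h1 : chi d' w' = g := by
        rw [← c1]
        rw [hdim1, hdim, hg1] at hns
        unfold chi
        have h2 : (∑ j, ((w1 j + 1).choose 2 : ℤ)) = ((∑ j, (w1 j + 1).choose 2 : ℕ) : ℤ) := by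
          push_cast
          rfl
        rw [h2]
        have h3 : ∑ j, (w1 j + 1).choose 2 ≤ (d1 + 2).choose 2 := by omega
        rw [hns]
        push_cast [Nat.cast_sub h3]
        rfl
      refine ⟨d', w', k, C, e, u, N, hDcp, by omega, ?_⟩
      by_contra hcon
      push Not at hcon
      have h2 := hDcp.chi_one hcon
      omega
    · by_cases hns : chi d1 w1 = g
      · -- again non-special
        left
        refine ⟨d', w', k, C, e, u, N, hDcp, by omega, ?_⟩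
        by_contra hcon
        push Not at hcon
        have h2 := hDcp.chi_one hcon
        omega
      · right
        refine ⟨⟨d', w', k, C, e, u, N, d1, w1, hDcp, hchain, hred, b1, b2, by omega, by omega, ?_⟩,
          by omega, ?_⟩
        · rw [special_iff, q2]
          have h3 := chi_le_dim P d1 w1
          rw [q2] at h3
          constructor
          · omega
          · rw [hg1e] at h3 ⊢
            omega
        · have h3 := hDcp.chi_le
          have h4 := hDcp.kk_eq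
          have h5 : 0 ≤ ∑ a, (N a : ℤ) := Finset.sum_nonneg fun a _ => Int.natCast_nonneg _
          have h6 : chi d1 w1 - kk d1 w1 < B := by
            unfold chi kk
            have h7 : (∑ j, ((w1 j + 1).choose 2 : ℤ)) =
                ((∑ j, (w1 j + 1).choose 2 : ℕ) : ℤ) := by
              push_cast
              rfl
            have h8 : (∑ j, (w1 j : ℤ)) = ((∑ j, w1 j : ℕ) : ℤ) := by
              push_cast
              rfl
            rw [h7, h8]
            omega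
          omega

end Pool.Agent.TH167.SH
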