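import Mathlib

set_option autoImplicit false

/-!
# Linear systems of plane curves with assigned multiplicities: definitions

Points of the plane are given by affine coordinates. A class `d H - ∑ w i E i` on the blow-up of
the plane at `s` points is given by its degree `d` and its multiplicities `w`.
-/

namespace Pool.Agent.TH167.SHDefs

open MvPolynomial

/-- The homogeneous ideal of the point `(p 0 : p 1 : 1)`. -/
noncomputable def pt {K : Type} [Field K] (p : Fin 2 → K) : Ideal (MvPolynomial (Fin 3) K) :=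
  Ideal.span {X 0 - C (p 0) * X 2, X 1 - C (p 1) * X 2}

/-- The space of the forms of degree `d` with multiplicity at least `w i` at `P i` for all `i`. -/
noncomputable def sys {K : Type} [Field K] {s : ℕ} (P : Fin s → Fin 2 → K) (d : ℕ)
    (w : Fin s → ℕ) : Submodule K (MvPolynomial (Fin 3) K) :=
  homogeneousSubmodule (Fin 3) K d ⊓ Submodule.restrictScalars K (⨅ i, pt (P i) ^ (w i))

/-- The (projective) dimension of the linear system. -/
noncomputable def dimL {K : Type} [Field K] {s : ℕ} (P : Fin s → Fin 2 → K) (d : ℕ)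
    (w : Fin s → ℕ) : ℤ := (Module.finrank K ↥(sys P d w) : ℤ) - 1

/-- The virtual dimension. -/
def virtdim {s : ℕ} (d : ℕ) (w : Fin s → ℕ) : ℤ :=
  ((d + 2).choose 2 : ℤ) - 1 - ∑ i, ((w i + 1).choose 2 : ℤ)

/-- The linear system is special: its dimension is not the expected one. -/
def Special {K : Type} [Field K] {s : ℕ} (P : Fin s → Fin 2 → K) (d : ℕ) (w : Fin s → ℕ) : Prop :=
  dimL P d w ≠ max (virtdim d w) (-1)

/-- The intersection number of two classes. -/
def inter {s : ℕ} (d : ℕ) (w : Fin s → ℕ) (e : ℕ) (u : Fin s → ℕ) : ℤ :=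
  (d : ℤ) * e - ∑ i, (w i : ℤ) * u i

/-- The intersection number of a class with the canonical class. -/
def interK {s : ℕ} (d : ℕ) (w : Fin s → ℕ) : ℤ := -3 * (d : ℤ) + ∑ i, (w i : ℤ)

/-- The form `G` has degree `d` and defines an irreducible curve with multiplicity exactly `w i`
at `P i` for all `i`: its strict transform on the blow-up has class `(d, w)`. -/
structure Curve {K : Type} [Field K] {s : ℕ} (P : Fin s → Fin 2 → K)
    (G : MvPolynomial (Fin 3) K) (d : ℕ) (w : Fin s → ℕ) : Prop where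
  irreducible : Irreducible G
  homogeneous : G.IsHomogeneous d
  mult : ∀ i, G ∈ pt (P i) ^ (w i) ∧ G ∉ pt (P i) ^ (w i + 1)

/-- The strict transform of the irreducible curve is a `(-1)`-curve. -/
structure MinusOne {K : Type} [Field K] {s : ℕ} (P : Fin s → Fin 2 → K)
    (G : MvPolynomial (Fin 3) K) (e : ℕ) (u : Fin s → ℕ) : Prop where
  curve : Curve P G e u
  self : inter e u e u = -1
  canonical : interK e u = -1

/-- The class `(d, w)` is the sum of the classes of the pairwise disjoint `(-1)`-curves `G a`, with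
multiplicities `N a > 0`, and of the class `(d', w')`, which is orthogonal to the `G a`. -/
structure Decomp {K : Type} [Field K] {s : ℕ} (P : Fin s → Fin 2 → K) (d : ℕ) (w : Fin s → ℕ)
    (d' : ℕ) (w' : Fin s → ℕ) {k : ℕ} (G : Fin k → MvPolynomial (Fin 3) K) (e : Fin k → ℕ)
    (u : Fin k → Fin s → ℕ) (N : Fin k → ℕ) : Prop where
  curve : ∀ a, MinusOne P (G a) (e a) (u a)
  pos : ∀ a, 0 < N a
  disjoint : ∀ a b, a ≠ b → inter (e a) (u a) (e b) (u b) = 0
  degree : d = d' + ∑ a, N a * e a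
  mult : ∀ i, w i = w' i + ∑ a, N a * u a i
  orthogonal : ∀ a, inter d' w' (e a) (u a) = 0

/-- The linear system is `(-1)`-special. -/
def MinusOneSpecial {K : Type} [Field K] {s : ℕ} (P : Fin s → Fin 2 → K) (d : ℕ)
    (w : Fin s → ℕ) : Prop :=
  ∃ (d' : ℕ) (w' : Fin s → ℕ) (k : ℕ) (G : Fin k → MvPolynomial (Fin 3) K)
    (e : Fin k → ℕ) (u : Fin k → Fin s → ℕ) (N : Fin k → ℕ),
    Decomp P d w d' w' G e u N ∧ 0 ≤ virtdim d' w' ∧ ∃ a, 2 ≤ N a

/-- One quadratic (Cremona) transformation of classes. -/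
def Quadratic {s : ℕ} (a b : ℕ × (Fin s → ℕ)) : Prop :=
  ∃ i j k : Fin s, i ≠ j ∧ i ≠ k ∧ j ≠ k ∧
    (b.1 : ℤ) = 2 * a.1 - a.2 i - a.2 j - a.2 k ∧
    (b.2 i : ℤ) = a.1 - a.2 j - a.2 k ∧
    (b.2 j : ℤ) = a.1 - a.2 i - a.2 k ∧
    (b.2 k : ℤ) = a.1 - a.2 i - a.2 j ∧
    ∀ l, l ≠ i → l ≠ j → l ≠ k → b.2 l = a.2 l

/-- The class `(d', w')` is obtained from `(d, w)` by finitely many quadratic transformations, it
is reduced (the degree is at least the sum of any three multiplicities), its degree is less than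
`B` and less than `B + 3` of its multiplicities are nonzero. -/
def ReducesTo {s : ℕ} (B : ℕ) (d : ℕ) (w : Fin s → ℕ) (d' : ℕ) (w' : Fin s → ℕ) : Prop :=
  Relation.ReflTransGen Quadratic (d, w) (d', w') ∧
    (∀ i j k : Fin s, i ≠ j → i ≠ k → j ≠ k → w' i + w' j + w' k ≤ d') ∧
    d' < B ∧ (Finset.univ.filter fun i => w' i ≠ 0).card < B + 3

/-- At most five of the multiplicities are larger than `m`, or the sum of those which are larger
than `m` is at most `2 d - (4 m ^ 2 + 8 m + 5)`. -/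
def FewLarge {s : ℕ} (m d : ℕ) (w : Fin s → ℕ) : Prop :=
  (Finset.univ.filter fun i => m < w i).card ≤ 5 ∨
    (∑ i, if m < w i then w i else 0) + (4 * m ^ 2 + 8 * m + 5) ≤ 2 * d

/-- The bound `2 ^ 17 (4 m ^ 2 + 8 m + 5) ^ 4`. -/
def bd (m : ℕ) : ℕ := 131072 * (4 * m ^ 2 + 8 * m + 5) ^ 4

end Pool.Agent.TH167.SHDefs
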