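import Pool.Agent.H15.G.R_seed8.TH167.SH.Main

set_option autoImplicit false

/-!
# The dimension of a linear system is constant on an open set
-/

namespace Pool.Agent.TH167.SH

open MvPolynomial Pool.Agent.W609 Pool.Agent.W609.CR

section rank

variable {m n : Type} [Fintype m] [Fintype n]

theorem trace_rank [DecidableEq m] {K : Type} [Field K] (A : Matrix m n K) (C : Matrix n m K)
    (h : A * C * A = A) : Matrix.trace (A * C) = (A.rank : K) := by
  have hproj : LinearMap.IsProj (LinearMap.range A.mulVecLin) (A * C).mulVecLin := by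
    constructor
    · intro x
      refine ⟨C.mulVecLin x, ?_⟩
      rw [Matrix.mulVecLin_apply, Matrix.mulVecLin_apply, Matrix.mulVecLin_apply,
        Matrix.mulVec_mulVec]
    · rintro _ ⟨y, rfl⟩
      rw [Matrix.mulVecLin_apply, Matrix.mulVecLin_apply, Matrix.mulVec_mulVec, h]
  have h1 := hproj.trace
  rw [← Matrix.toLin'_apply', Matrix.trace_toLin'_eq] at h1
  exact h1

theorem exists_ginv [DecidableEq m] [DecidableEq n] {L : Type} [Field L] (A : Matrix m n L) : ∃ B : Matrix n m L,
    A * B * A = A := by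
  obtain ⟨s, hs⟩ := (A.mulVecLin.rangeRestrict).exists_rightInverse_of_surjective
    (LinearMap.range_rangeRestrict _)
  obtain ⟨p, hp⟩ := (LinearMap.range A.mulVecLin).subtype.exists_leftInverse_of_injective
    (Submodule.ker_subtype _)
  refine ⟨LinearMap.toMatrix' (s.comp p), ?_⟩
  apply Matrix.toLin'.injective
  rw [Matrix.toLin'_mul, Matrix.toLin'_mul, Matrix.toLin'_toMatrix']
  refine LinearMap.ext fun x => ?_
  simp only [LinearMap.comp_apply, Matrix.toLin'_apply']
  have h1 : p (A.mulVecLin x) = A.mulVecLin.rangeRestrict x := by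
    have h2 := DFunLike.congr_fun hp (A.mulVecLin.rangeRestrict x)
    simpa using h2
  rw [h1]
  have h3 := DFunLike.congr_fun hs (A.mulVecLin.rangeRestrict x)
  simp only [LinearMap.comp_apply, LinearMap.id_apply] at h3
  have h4 := congrArg Subtype.val h3
  simpa using h4

/-- The rank of a matrix is constant on an open set. -/
theorem rank_spread [DecidableEq m] [DecidableEq n] {R : Type} [CommRing R] [IsDomain R] [CharZero R] (A : Matrix m n R) :
    ∃ (ρ : ℕ) (D : R), D ≠ 0 ∧ ∀ (K : Type) [Field K] [CharZero K] (φ : R →+* K),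
      φ D ≠ 0 → (A.map φ).rank = ρ := by
  classical
  obtain ⟨B, hB⟩ := exists_ginv (A.map (algebraMap R (FractionRing R)))
  obtain ⟨b, hb⟩ := IsLocalization.exist_integer_multiples_of_finite (nonZeroDivisors R)
    (fun ij : n × m => B ij.1 ij.2)
  choose B0 hB0 using fun ij => hb ij
  have hinj := IsFractionRing.injective R (FractionRing R)
  let C : Matrix n m R := Matrix.of fun i j => B0 (i, j)
  have hC : C.map (algebraMap R (FractionRing R)) = (algebraMap R (FractionRing R) b) • B := by
    ext i j
    rw [Matrix.map_apply, Matrix.smul_apply, smul_eq_mul]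
    have h1 := hB0 (i, j)
    simp only at h1
    rw [Algebra.smul_def] at h1
    exact h1
  have h1 : A * C * A = (b : R) • A := by
    apply Matrix.map_injective hinj
    show (A * C * A).map (algebraMap R (FractionRing R)) =
      ((b : R) • A).map (algebraMap R (FractionRing R))
    rw [Matrix.map_mul, Matrix.map_mul, hC, Matrix.mul_smul, Matrix.smul_mul, hB]
    ext i j
    simp
  have h2 : Matrix.trace (A * C) =
      ((A.map (algebraMap R (FractionRing R))).rank : R) * (b : R) := by
    apply hinj
    have h3 : algebraMap R (FractionRing R) (Matrix.trace (A * C)) =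
        Matrix.trace ((A * C).map (algebraMap R (FractionRing R))) :=
      AddMonoidHom.map_trace (algebraMap R (FractionRing R)).toAddMonoidHom _
    rw [h3, Matrix.map_mul, hC, Matrix.mul_smul, Matrix.trace_smul, trace_rank _ _ hB, map_mul,
      map_natCast, smul_eq_mul, mul_comm]
  refine ⟨(A.map (algebraMap R (FractionRing R))).rank, b, nonZeroDivisors.coe_ne_zero b, ?_⟩
  intro K _ _ φ hφ
  have h4 : A.map φ * ((φ b)⁻¹ • C.map φ) * A.map φ = A.map φ := by
    rw [Matrix.mul_smul, Matrix.smul_mul, ← Matrix.map_mul, ← Matrix.map_mul, h1]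
    ext i j
    rw [Matrix.smul_apply, Matrix.map_apply, Matrix.smul_apply, Matrix.map_apply, smul_eq_mul,
      smul_eq_mul, map_mul, ← mul_assoc, inv_mul_cancel₀ hφ, one_mul]
  have h5 := trace_rank _ _ h4
  have h6 : Matrix.trace (A.map φ * ((φ b)⁻¹ • C.map φ)) =
      ((A.map (algebraMap R (FractionRing R))).rank : K) := by
    rw [Matrix.mul_smul, Matrix.trace_smul, ← Matrix.map_mul]
    have h7 : Matrix.trace ((A * C).map φ) = φ (Matrix.trace (A * C)) :=
      (AddMonoidHom.map_trace φ.toAddMonoidHom _).symm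
    rw [h7, h2, map_mul, map_natCast, smul_eq_mul, mul_comm, mul_assoc, mul_inv_cancel₀ hφ,
      mul_one]
  rw [h6] at h5
  exact_mod_cast h5.symm

end rank

section mat

/-- The exponents of degree `d`. -/
def Ex (d : ℕ) : Finset (Fin 3 →₀ ℕ) := Finset.finsuppAntidiag Finset.univ d

theorem mem_Ex (d : ℕ) (a : Fin 3 →₀ ℕ) : a ∈ Ex d ↔ a.degree = d := by
  unfold Ex
  rw [Finset.mem_finsuppAntidiag, Finsupp.degree_eq_sum]
  constructor
  · exact fun h => h.1
  · exact fun h => ⟨h, Finset.subset_univ _⟩

/-- The exponents of degree less than `t`. -/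
def Lo (t : ℕ) : Finset (Fin 3 →₀ ℕ) := (Finset.range t).biUnion Ex

theorem mem_Lo (t : ℕ) (a : Fin 3 →₀ ℕ) : a ∈ Lo t ↔ a.degree < t := by
  unfold Lo
  rw [Finset.mem_biUnion]
  constructor
  · rintro ⟨k, hk, ha⟩
    rw [mem_Ex] at ha
    rw [Finset.mem_range] at hk
    omega
  · intro h
    exact ⟨a.degree, Finset.mem_range.2 h, (mem_Ex _ _).2 rfl⟩

/-- Translation over a ring. -/
noncomputable def shR {R : Type} [CommRing R] (v : Fin 3 → R) :
    MvPolynomial (Fin 3) R →ₐ[R] MvPolynomial (Fin 3) R :=
  aeval (fun l => X l + C (v l))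

theorem map_shR {R K : Type} [CommRing R] [Field K] (φ : R →+* K) (v : Fin 3 → R)
    (f : MvPolynomial (Fin 3) R) :
    MvPolynomial.map φ (shR v f) = shift (n := 2) (fun l => φ (v l)) (MvPolynomial.map φ f) := by
  have h : (MvPolynomial.map φ).comp (shR v).toRingHom =
      (shift (n := 2) (fun l => φ (v l))).toRingHom.comp (MvPolynomial.map φ) := by
    apply MvPolynomial.ringHom_ext
    · intro r
      simp [shR, shift]
    · intro i
      simp [shR, shift]
  exact DFunLike.congr_fun h f

/-- The universal points. -/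
noncomputable def uv {s : ℕ} (j : Fin s) : Fin 3 → MvPolynomial (Fin s × Fin 2) ℚ :=
  ![X (j, 0), X (j, 1), 1]

/-- The matrix of the conditions. -/
noncomputable def cmat {s : ℕ} (w : Fin s → ℕ) (d : ℕ) :
    Matrix (Σ j : Fin s, {b // b ∈ Lo (w j)}) {a // a ∈ Ex d}
      (MvPolynomial (Fin s × Fin 2) ℚ) :=
  Matrix.of fun jb a => MvPolynomial.coeff jb.2.1 (shR (uv jb.1) (monomial a.1 1))

theorem vs_rank {K : Type} [Field K] [CharZero K] {s : ℕ} (P : Fin s → Fin 2 → K)
    (w : Fin s → ℕ) (d : ℕ) :
    ((cmat w d).map (MvPolynomial.aeval (fun ij : Fin s × Fin 2 => P ij.1 ij.2)).toRingHom).rank +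
      Module.finrank K ↥(VS (fun j => aff (P j)) w d) = (Ex d).card := by
  classical
  obtain ⟨φ, hφ⟩ : ∃ φ : MvPolynomial (Fin s × Fin 2) ℚ →+* K,
      φ = (MvPolynomial.aeval (fun ij : Fin s × Fin 2 => P ij.1 ij.2)).toRingHom := ⟨_, rfl⟩
  rw [← hφ]
  have huv : ∀ j : Fin s, (fun l => φ (uv j l)) = aff (P j) := by
    intro j
    funext l
    rw [hφ]
    fin_cases l <;> simp [uv, aff]
  have hM : ∀ jb a, (cmat w d).map φ jb a =
      MvPolynomial.coeff jb.2.1 (shift (n := 2) (aff (P jb.1)) (monomial a.1 (1 : K))) := by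
    intro jb a
    rw [Matrix.map_apply]
    unfold cmat
    rw [Matrix.of_apply, ← MvPolynomial.coeff_map, map_shR, huv, MvPolynomial.map_monomial,
      map_one]
  let T : ({a // a ∈ Ex d} → K) →ₗ[K] MvPolynomial (Fin 3) K :=
    { toFun := fun x => ∑ a, monomial a.1 (x a)
      map_add' := fun x y => by
        rw [← Finset.sum_add_distrib]
        exact Finset.sum_congr rfl fun a _ => by rw [Pi.add_apply, map_add]
      map_smul' := fun c x => by
        rw [Finset.smul_sum]
        exact Finset.sum_congr rfl fun a _ => by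
          rw [Pi.smul_apply, map_smul, RingHom.id_apply] }
  have hT : ∀ x, T x = ∑ a : {a // a ∈ Ex d}, monomial a.1 (x a) := fun x => rfl
  have hTc : ∀ x (a : {a // a ∈ Ex d}), MvPolynomial.coeff a.1 (T x) = x a := by
    intro x a
    rw [hT, MvPolynomial.coeff_sum, Finset.sum_eq_single a]
    · rw [coeff_monomial, if_pos rfl]
    · intro b _ hb
      rw [coeff_monomial, if_neg (fun h => hb (Subtype.ext h))]
    · intro h
      exact absurd (Finset.mem_univ a) h
  have hTinj : Function.Injective T := by
    intro x y hxy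
    funext a
    rw [← hTc x a, ← hTc y a, hxy]
  have hcoef : ∀ x (jb : Σ j : Fin s, {b // b ∈ Lo (w j)}),
      MvPolynomial.coeff jb.2.1 (shift (n := 2) (aff (P jb.1)) (T x)) =
        ((cmat w d).map φ).mulVecLin x jb := by
    intro x jb
    rw [Matrix.mulVecLin_apply, hT, map_sum, MvPolynomial.coeff_sum]
    unfold Matrix.mulVec dotProduct
    refine Finset.sum_congr rfl fun a _ => ?_
    have h1 : (monomial a.1 (x a) : MvPolynomial (Fin 3) K) = x a • monomial a.1 (1 : K) := by
      rw [smul_monomial, smul_eq_mul, mul_one]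
    rw [h1, map_smul, MvPolynomial.coeff_smul, smul_eq_mul, ← hM jb a]
    exact mul_comm _ _
  have hVS : VS (fun j => aff (P j)) w d =
      Submodule.map T (LinearMap.ker ((cmat w d).map φ).mulVecLin) := by
    ext f
    rw [mem_VS, Submodule.mem_map]
    constructor
    · rintro ⟨h1, h2⟩
      have hf : T (fun a => MvPolynomial.coeff a.1 f) = f := by
        ext a
        by_cases ha : a ∈ Ex d
        · exact hTc _ ⟨a, ha⟩
        · rw [hT, MvPolynomial.coeff_sum, Finset.sum_eq_zero]
          · symm
            by_contra hne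
            exact ha ((mem_Ex d a).2 (homog_degree (n := 2) h1 (mem_support_iff.2 hne)))
          · intro b _
            rw [coeff_monomial, if_neg]
            intro h
            exact ha (h ▸ b.2)
      refine ⟨fun a => MvPolynomial.coeff a.1 f, ?_, hf⟩
      rw [LinearMap.mem_ker]
      funext jb
      rw [← hcoef, hf]
      have h3 := h2 jb.1
      unfold Van at h3
      rw [mem_ker_pow_iff (n := 2)] at h3
      exact h3 _ ((mem_Lo _ _).1 jb.2.2)
    · rintro ⟨x, hx, rfl⟩
      rw [LinearMap.mem_ker] at hx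
      constructor
      · rw [hT]
        refine IsHomogeneous.sum _ _ _ fun a _ => ?_
        exact isHomogeneous_monomial _ ((mem_Ex d a.1).1 a.2)
      · intro j
        unfold Van
        rw [mem_ker_pow_iff (n := 2)]
        intro b hb
        have h3 := hcoef x ⟨j, ⟨b, (mem_Lo _ _).2 hb⟩⟩
        rw [hx] at h3
        exact h3
  have h1 := LinearMap.finrank_range_add_finrank_ker ((cmat w d).map φ).mulVecLin
  rw [hVS, ← LinearEquiv.finrank_eq (Submodule.equivMapOfInjective T hTinj _)]
  rw [Module.finrank_fintype_fun_eq_card, Fintype.card_coe] at h1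
  exact h1

/-- The dimension is constant on an open set. -/
theorem dim_gen {s : ℕ} (w : Fin s → ℕ) (d : ℕ) :
    ∃ (g : ℕ) (F : MvPolynomial (Fin s × Fin 2) ℚ), F ≠ 0 ∧
      ∀ (K : Type) [Field K] [CharZero K] (P : Fin s → Fin 2 → K),
        MvPolynomial.aeval (fun ij : Fin s × Fin 2 => P ij.1 ij.2) F ≠ 0 →
        Module.finrank K ↥(VS (fun j => aff (P j)) w d) = g := by
  classical
  obtain ⟨ρ, D, hD, h⟩ := rank_spread (cmat w d)
  refine ⟨(Ex d).card - ρ, D, hD, fun K _ _ P hP => ?_⟩
  have h1 := h K (MvPolynomial.aeval (fun ij : Fin s × Fin 2 => P ij.1 ij.2)).toRingHom hP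
  have h2 := vs_rank P w d
  omega

end mat

end Pool.Agent.TH167.SH
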