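import Pool.Agent.H15.G.R_seed8.TH167.SH.Dec
import Pool.Agent.H15.G.R_seed8.W611.FinH

set_option autoImplicit false

/-!
# Reduced classes
-/

namespace Pool.Agent.TH167.SH

open MvPolynomial Pool.Agent.W609 Pool.Agent.W609.CR Pool.Agent.H932R2 Pool.Agent.H932R3
  Pool.Agent.H932R7

/-- Few multiplicities, or multiplicities of small sum, are larger than `m`. -/
def Few {s : ℕ} (m d : ℕ) (w : Fin s → ℕ) : Prop :=
  (Finset.univ.filter fun i => m < w i).card ≤ 5 ∨
    (∑ i, if m < w i then w i else 0) + (4 * m ^ 2 + 8 * m + 5) ≤ 2 * d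

/-- Any three different multiplicities have sum at most the degree. -/
def Reduced {s : ℕ} (d : ℕ) (w : Fin s → ℕ) : Prop :=
  ∀ i j k : Fin s, i ≠ j → i ≠ k → j ≠ k → w i + w j + w k ≤ d

theorem sum_large (L : Type) [Field L] [CharZero L] {r m d : ℕ} (hm : 0 < m)
    {v : Fin (r + 4) → ℕ} (hv : Antitone v)
    (hs : (∑ i, if m < v i then v i else 0) + (4 * m ^ 2 + 8 * m + 5) ≤ 2 * d)
    (hd : v 0 + v 1 + v 2 ≤ d)
    (hB : 131072 * (4 * m ^ 2 + 8 * m + 5) ^ 4 +
        (v 0 * (v 0 + 1) + v 1 * (v 1 + 1) + v 2 * (v 2 + 1)) ≤ (d + 1) * (d + 2) ∨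
      131072 * (4 * m ^ 2 + 8 * m + 5) ^ 4 ≤
        ∑ i : Fin (r + 4), if 3 ≤ (i : ℕ) then (v i + 1).choose 2 else 0) :
    ∃ F : MvPolynomial (Fin (r + 4) × Fin 2) ℚ, F ≠ 0 ∧ ∀ P : Fin (r + 4) → Fin 2 → L,
      MvPolynomial.aeval (fun ij : Fin (r + 4) × Fin 2 => P ij.1 ij.2) F ≠ 0 → ExpDim L v P d := by
  classical
  have n0 : ((0 : Fin (r + 4)) : ℕ) = 0 := rfl
  have n1 : ((1 : Fin (r + 4)) : ℕ) = 1 := Nat.mod_eq_of_lt (show 1 < r + 4 by omega)
  have n2 : ((2 : Fin (r + 4)) : ℕ) = 2 := Nat.mod_eq_of_lt (show 2 < r + 4 by omega)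
  have n3 : ((3 : Fin (r + 4)) : ℕ) = 3 := Nat.mod_eq_of_lt (show 3 < r + 4 by omega)
  have h32 : v 3 ≤ v 2 := hv (by rw [Fin.le_def, n3, n2]; omega)
  have h21 : v 2 ≤ v 1 := hv (by rw [Fin.le_def, n2, n1]; omega)
  have h10 : v 1 ≤ v 0 := hv (by rw [Fin.le_def, n1, n0]; omega)
  rcases Nat.eq_zero_or_pos (v 3) with h0 | h0
  · obtain ⟨F, hF, hF'⟩ := T.big_three L hv h0
    exact ⟨F, hF, fun P hP => hF' P hP d hd⟩
  rcases Nat.lt_or_ge (v 2) (4 * m ^ 2 + 8 * m + 5) with h2 | h2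
  · obtain ⟨F, hF, hF'⟩ := T.big3' L hv h0
    refine ⟨F, hF, fun P hP => hF' P hP d hd ?_⟩
    have h4 : 131072 * (v 3 + 1) ^ 4 ≤ 131072 * (4 * m ^ 2 + 8 * m + 5) ^ 4 :=
      Nat.mul_le_mul_left _ (Nat.pow_le_pow_left (by omega) 4)
    rcases hB with h | h
    · left
      omega
    · right
      omega
  · have e : W611.ff m = 2 * m ^ 2 + 3 * m + 2 := by
      unfold W611.ff
      ring
    have hm2 : 2 * m ^ 2 ≤ 4 * m ^ 2 := Nat.mul_le_mul_right _ (by omega)
    have hC : W611.Cnd m d v := by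
      refine ⟨by omega, fun i hi => ?_, fun i j hij hi hj => ?_, ?_⟩
      · have : v i ≤ v 0 := hv (Fin.zero_le _)
        rw [e]
        omega
      · have hne : (i : ℕ) ≠ (j : ℕ) := fun h => hij (Fin.ext h)
        rw [e]
        rcases Nat.lt_or_ge (i : ℕ) (j : ℕ) with hlt | hge
        · have g1 : v i ≤ v 0 := hv (Fin.zero_le _)
          have g2 : v j ≤ v 1 := hv (by rw [Fin.le_def, n1]; omega)
          omega
        · have g1 : v j ≤ v 0 := hv (Fin.zero_le _)
          have g2 : v i ≤ v 1 := hv (by rw [Fin.le_def, n1]; omega)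
          omega
      · right
        have h7 : W611.Slg m v = ∑ i, if m < v i then v i else 0 := by
          unfold W611.Slg
          refine Finset.sum_congr rfl fun i _ => ?_
          split_ifs <;> omega
        rw [h7, e]
        omega
    obtain ⟨F, hF, hF'⟩ := W611.expH L m hm v d hC
    exact ⟨F, hF, fun P hP => hF' P hP d (Or.inl le_rfl)⟩

/-- The dimension for sorted multiplicities. -/
theorem gen_red {K : Type} [Field K] [CharZero K] {r m d : ℕ} (hm : 0 < m)
    {v : Fin (r + 4) → ℕ} (hv : Antitone v)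
    (hH : (∀ i : Fin (r + 4), 5 ≤ (i : ℕ) → v i ≤ m) ∨
      (∑ i, if m < v i then v i else 0) + (4 * m ^ 2 + 8 * m + 5) ≤ 2 * d)
    (hd : v 0 + v 1 + v 2 ≤ d)
    (hB : 131072 * (4 * m ^ 2 + 8 * m + 5) ^ 4 +
        (v 0 * (v 0 + 1) + v 1 * (v 1 + 1) + v 2 * (v 2 + 1)) ≤ (d + 1) * (d + 2) ∨
      131072 * (4 * m ^ 2 + 8 * m + 5) ^ 4 ≤
        ∑ i : Fin (r + 4), if 3 ≤ (i : ℕ) then (v i + 1).choose 2 else 0)
    {P : Fin (r + 4) → Fin 2 → K}
    (hP : AlgebraicIndependent ℚ (fun ij : Fin (r + 4) × Fin 2 => P ij.1 ij.2)) :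
    Module.finrank K ↥(VS (fun j => aff (P j)) v d) =
      (d + 2).choose 2 - ∑ j, (v j + 1).choose 2 := by
  have hne : ∀ F : MvPolynomial (Fin (r + 4) × Fin 2) ℚ, F ≠ 0 →
      MvPolynomial.aeval (fun ij : Fin (r + 4) × Fin 2 => P ij.1 ij.2) F ≠ 0 :=
    fun F hF h0 => hF (hP.eq_zero_of_aeval_eq_zero F h0)
  rcases hH with h5 | hs
  · obtain ⟨F, hF, hF'⟩ := T.big5 K hm hv h5
    have hE := hF' P (hne F hF) d hd hB
    rw [vs_eq_forms]
    exact hE
  · obtain ⟨F, hF, hF'⟩ := sum_large K hm hv hs hd hB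
    have hE := hF' P (hne F hF)
    rw [vs_eq_forms]
    exact hE

theorem sort_five {r m : ℕ} {w : Fin (r + 4) → ℕ} (σ : Equiv.Perm (Fin (r + 4)))
    (hσ : Antitone fun j => w (σ j)) (hw : (Finset.univ.filter fun i => m < w i).card ≤ 5)
    (j : Fin (r + 4)) (hj : 5 ≤ (j : ℕ)) : w (σ j) ≤ m := by
  by_contra hcon
  push Not at hcon
  have h1 : (Finset.univ.filter fun a : Fin (r + 4) => a ≤ j).card ≤
      (Finset.univ.filter fun i => m < w i).card := by
    refine Finset.card_le_card_of_injOn σ (fun a ha => ?_) σ.injective.injOn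
    rw [Finset.mem_coe, Finset.mem_filter] at ha ⊢
    refine ⟨Finset.mem_univ _, ?_⟩
    exact lt_of_lt_of_le hcon (hσ ha.2)
  have h2 : (Finset.univ.filter fun a : Fin (r + 4) => a ≤ j).card = (j : ℕ) + 1 := by
    have : (Finset.univ.filter fun a : Fin (r + 4) => a ≤ j) = Finset.Iic j := by
      ext a
      simp
    rw [this, Fin.card_Iic]
  omega

theorem num_bd {B d a b c : ℕ} (hB : 100 ≤ B) (hba : b ≤ a) (hcb : c ≤ b) (hc : 1 ≤ c)
    (hd : a + b + c ≤ d)
    (h : (d + 1) * (d + 2) < B + (a * (a + 1) + b * (b + 1) + c * (c + 1))) : d < B := by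
  have h1 : (a + b + c + 1) * (a + b + c + 2) ≤ (d + 1) * (d + 2) :=
    Nat.mul_le_mul (by omega) (by omega)
  have h2 : 2 * (a * b + a * c + b * c) < B := by nlinarith
  have h3 : a ≤ a * b := Nat.le_mul_of_pos_right _ (by omega)
  have h4 : a ≤ a * c := Nat.le_mul_of_pos_right _ hc
  have h5 : b * b ≤ a * b := Nat.mul_le_mul_right _ hba
  have h6 : c * c ≤ b * c := Nat.mul_le_mul_right _ hcb
  have h7 : 4 * a < B := by omega
  have h8 : b * b + c * c < B := by omega
  by_contra hcon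
  push Not at hcon
  have h9 : (B + 1) * (B + 2) ≤ (d + 1) * (d + 2) := Nat.mul_le_mul (by omega) (by omega)
  have h10 : 16 * (a * a) ≤ B * B := by
    have : (4 * a) * (4 * a) ≤ B * B := Nat.mul_le_mul (by omega) (by omega)
    nlinarith
  have h11 : (B + 1) * (B + 2) < B + (a * (a + 1) + b * (b + 1) + c * (c + 1)) := by omega
  have h12 : (B + 1) * (B + 2) = B * B + 3 * B + 2 := by ring
  have h13 : a * (a + 1) = a * a + a := by ring
  have h14 : b * (b + 1) = b * b + b := by ring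
  have h15 : c * (c + 1) = c * c + c := by ring
  have h16 : 100 * B ≤ B * B := Nat.mul_le_mul_right _ hB
  omega

/-- The reduced case. -/
theorem red_case {K : Type} [Field K] [CharZero K] {r m B d : ℕ} (hm : 0 < m)
    (hB : B = 131072 * (4 * m ^ 2 + 8 * m + 5) ^ 4)
    {P : Fin (r + 4) → Fin 2 → K}
    (hP : AlgebraicIndependent ℚ (fun ij : Fin (r + 4) × Fin 2 => P ij.1 ij.2))
    {w : Fin (r + 4) → ℕ} (hH : Few m d w) (hred : Reduced d w) :
    Module.finrank K ↥(VS (fun j => aff (P j)) w d) =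
      (d + 2).choose 2 - ∑ j, (w j + 1).choose 2 ∨
    (d < B ∧ (Finset.univ.filter fun j => w j ≠ 0).card < B + 3 ∧
      Module.finrank K ↥(VS (fun j => aff (P j)) w d) < B ∧
      (d + 2).choose 2 + ∑ j, w j < B + ∑ j, (w j + 1).choose 2 + 3 * d) := by
  classical
  have n0 : ((0 : Fin (r + 4)) : ℕ) = 0 := rfl
  have n1 : ((1 : Fin (r + 4)) : ℕ) = 1 := Nat.mod_eq_of_lt (show 1 < r + 4 by omega)
  have n2 : ((2 : Fin (r + 4)) : ℕ) = 2 := Nat.mod_eq_of_lt (show 2 < r + 4 by omega)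
  have n3 : ((3 : Fin (r + 4)) : ℕ) = 3 := Nat.mod_eq_of_lt (show 3 < r + 4 by omega)
  have hB100 : 100 ≤ B := by
    rw [hB]
    have h1 : 1 ≤ (4 * m ^ 2 + 8 * m + 5) ^ 4 := Nat.one_le_pow _ _ (by omega)
    omega
  obtain ⟨σ, hσ⟩ := exists_sort w
  obtain ⟨v, hv⟩ : ∃ v : Fin (r + 4) → ℕ, v = fun j => w (σ j) := ⟨_, rfl⟩
  rw [← hv] at hσ
  have hsum : ∀ g : ℕ → ℕ, ∑ j, g (v j) = ∑ j, g (w j) := fun g => by
    rw [hv]
    exact Equiv.sum_comp σ (fun j => g (w j))
  have h21 : v 1 ≤ v 0 := hσ (by rw [Fin.le_def, n1, n0]; omega)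
  have h32 : v 2 ≤ v 1 := hσ (by rw [Fin.le_def, n1, n2]; omega)
  have h43 : v 3 ≤ v 2 := hσ (by rw [Fin.le_def, n2, n3]; omega)
  have k1 : (Fin.succ (0 : Fin (r + 3))) = (1 : Fin (r + 4)) := Fin.ext (by rw [n1]; rfl)
  have k2 : (Fin.succ (Fin.succ (0 : Fin (r + 2)))) = (2 : Fin (r + 4)) := Fin.ext (by
    rw [n2]; rfl)
  have hsplit : ∀ g : ℕ → ℕ, ∑ j, g (v j) = g (v 0) + g (v 1) + g (v 2) +
      ∑ j : Fin (r + 1), g (v (Fin.succ (Fin.succ (Fin.succ j)))) := by
    intro g
    rw [Fin.sum_univ_succ, Fin.sum_univ_succ, Fin.sum_univ_succ, k1, k2]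
    omega
  have hthree : ∀ g : ℕ → ℕ, g (v 0) + g (v 1) + g (v 2) ≤ ∑ j, g (v j) := by
    intro g
    rw [hsplit]
    omega
  have ne01 : σ 0 ≠ σ 1 := fun h => by
    have := congrArg Fin.val (σ.injective h)
    rw [n0, n1] at this
    omega
  have ne02 : σ 0 ≠ σ 2 := fun h => by
    have := congrArg Fin.val (σ.injective h)
    rw [n0, n2] at this
    omega
  have ne12 : σ 1 ≠ σ 2 := fun h => by
    have := congrArg Fin.val (σ.injective h)
    rw [n1, n2] at this
    omega
  have hge : v 0 + v 1 + v 2 ≤ d := by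
    rw [hv]
    exact hred _ _ _ ne01 ne02 ne12
  have hP2 : AlgebraicIndependent ℚ (fun ij : Fin (r + 4) × Fin 2 => P (σ ij.1) ij.2) :=
    hP.comp (fun ij : Fin (r + 4) × Fin 2 => (σ ij.1, ij.2)) (by
      rintro ⟨a, b⟩ ⟨a', b'⟩ h
      rw [Prod.mk.injEq] at h
      rw [Prod.mk.injEq]
      exact ⟨σ.injective h.1, h.2⟩)
  have hvs : VS (fun j => aff (P (σ j))) v d = VS (fun j => aff (P j)) w d := by
    rw [hv]
    exact vs_perm (fun j => aff (P j)) w d σ
  have hfew : (∀ i : Fin (r + 4), 5 ≤ (i : ℕ) → v i ≤ m) ∨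
      (∑ i, if m < v i then v i else 0) + (4 * m ^ 2 + 8 * m + 5) ≤ 2 * d := by
    rcases hH with h | h
    · left
      intro i hi
      rw [hv]
      refine sort_five σ ?_ h i hi
      rw [← hv]
      exact hσ
    · right
      have := hsum (fun x => if m < x then x else 0)
      omega
  have gch := hsum (fun x => (x + 1).choose 2)
  have gl := hsum (fun x => x)
  by_cases hbig : 131072 * (4 * m ^ 2 + 8 * m + 5) ^ 4 +
        (v 0 * (v 0 + 1) + v 1 * (v 1 + 1) + v 2 * (v 2 + 1)) ≤ (d + 1) * (d + 2) ∨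
      131072 * (4 * m ^ 2 + 8 * m + 5) ^ 4 ≤
        ∑ i : Fin (r + 4), if 3 ≤ (i : ℕ) then (v i + 1).choose 2 else 0
  · left
    have h1 := gen_red (P := fun j => P (σ j)) hm hσ hfew hge hbig hP2
    rw [hvs] at h1
    omega
  · -- three points
    obtain ⟨v3, hv3⟩ : ∃ v3 : Fin (r + 4) → ℕ, v3 = fun j : Fin (r + 4) => if (j : ℕ) < 3 then v j else 0 :=
      ⟨_, rfl⟩
    have hv3a : Antitone v3 := by
      intro a b hab
      rw [hv3]
      simp only
      have := hσ hab
      rw [Fin.le_def] at hab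
      split_ifs <;> omega
    have t0 : v3 0 = v 0 := by rw [hv3]; simp only [n0]; rfl
    have t1 : v3 1 = v 1 := by rw [hv3]; simp only [n1]; rfl
    have t2 : v3 2 = v 2 := by rw [hv3]; simp only [n2]; rfl
    have t3 : v3 3 = 0 := by rw [hv3]; simp only [n3]; rfl
    have hne : ∀ F : MvPolynomial (Fin (r + 4) × Fin 2) ℚ, F ≠ 0 →
        MvPolynomial.aeval (fun ij : Fin (r + 4) × Fin 2 => P (σ ij.1) ij.2) F ≠ 0 :=
      fun F hF h0 => hF (hP2.eq_zero_of_aeval_eq_zero F h0)
    rcases Nat.eq_zero_or_pos (v 3) with hz | hz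
    · -- at most three points
      left
      obtain ⟨F3, hF3, hF3'⟩ := T.big_three K hσ hz
      have hd3 := hF3' (fun j => P (σ j)) (hne F3 hF3) d hge
      have hd3' : Module.finrank K ↥(VS (fun j => aff (P (σ j))) v d) =
          (d + 2).choose 2 - ∑ j, (v j + 1).choose 2 := by
        rw [vs_eq_forms]
        exact hd3
      rw [hvs] at hd3'
      omega
    · right
      push Not at hbig
      rw [← hB] at hbig
      obtain ⟨b1, b2⟩ := hbig
      obtain ⟨F3, hF3, hF3'⟩ := T.big_three K hv3a t3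
      have hd3 := hF3' (fun j => P (σ j)) (hne F3 hF3) d (by rw [t0, t1, t2]; exact hge)
      have hd3' : Module.finrank K ↥(VS (fun j => aff (P (σ j))) v3 d) =
          (d + 2).choose 2 - ∑ j, (v3 j + 1).choose 2 := by
        rw [vs_eq_forms]
        exact hd3
      have hmono : Module.finrank K ↥(VS (fun j => aff (P j)) w d) ≤
          Module.finrank K ↥(VS (fun j => aff (P (σ j))) v3 d) := by
        rw [← hvs]
        have hf := vs_fin (fun j => aff (P (σ j))) v3 d
        refine Submodule.finrank_mono (vs_mono _ d fun j => ?_)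
        rw [hv3]
        simp only
        split_ifs <;> omega
      have hthree3 : (v 0 + 1).choose 2 + (v 1 + 1).choose 2 + (v 2 + 1).choose 2 ≤
          ∑ j, (v3 j + 1).choose 2 := by
        rw [Fin.sum_univ_succ, Fin.sum_univ_succ, Fin.sum_univ_succ, k1, k2, t0, t1, t2]
        omega
      have z0 := R4h.two_choose (v 0)
      have z1 := R4h.two_choose (v 1)
      have z2 := R4h.two_choose (v 2)
      have ze := H932R7.two_choose d
      have hch3 : (∑ i : Fin (r + 4), if 3 ≤ (i : ℕ) then (v i + 1).choose 2 else 0) =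
          ∑ j : Fin (r + 1), (v (Fin.succ (Fin.succ (Fin.succ j))) + 1).choose 2 := by
        rw [Fin.sum_univ_succ, Fin.sum_univ_succ, Fin.sum_univ_succ, k1, k2, n0, n1, n2,
          if_neg (by omega), if_neg (by omega), if_neg (by omega), Nat.zero_add, Nat.zero_add,
          Nat.zero_add]
        refine Finset.sum_congr rfl fun j _ => ?_
        rw [if_pos]
        simp only [Fin.val_succ]
        omega
      rw [hch3] at b2
      refine ⟨num_bd hB100 h21 h32 (by omega) hge b1, ?_, by omega, ?_⟩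
      · have h7 : (Finset.univ.filter fun j => w j ≠ 0).card =
            (Finset.univ.filter fun j => v j ≠ 0).card := by
          symm
          refine Finset.card_bij (fun a _ => σ a) ?_ ?_ ?_
          · intro a ha
            rw [Finset.mem_filter] at ha ⊢
            refine ⟨Finset.mem_univ _, ?_⟩
            have := ha.2
            rw [hv] at this
            exact this
          · intro a _ b _ hab
            exact σ.injective hab
          · intro b hb
            rw [Finset.mem_filter] at hb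
            refine ⟨σ.symm b, ?_, σ.apply_symm_apply b⟩
            rw [Finset.mem_filter]
            refine ⟨Finset.mem_univ _, ?_⟩
            rw [hv]
            show w (σ (σ.symm b)) ≠ 0
            rw [σ.apply_symm_apply]
            exact hb.2
        rw [h7, Finset.card_filter]
        have h8 := hsplit (fun x => if x ≠ 0 then 1 else 0)
        rw [h8]
        have h9 : ∑ j : Fin (r + 1), (if v (Fin.succ (Fin.succ (Fin.succ j))) ≠ 0 then 1 else 0) ≤
            ∑ j : Fin (r + 1), (v (Fin.succ (Fin.succ (Fin.succ j))) + 1).choose 2 := by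
          refine Finset.sum_le_sum fun j _ => ?_
          split_ifs with h
          · have h10 : 1 ≤ v (Fin.succ (Fin.succ (Fin.succ j))) := Nat.one_le_iff_ne_zero.2 h
            have h11 := R4h.two_choose (v (Fin.succ (Fin.succ (Fin.succ j))))
            nlinarith
          · exact Nat.zero_le _
        have h11 : ∀ x : ℕ, (if x ≠ 0 then 1 else 0) ≤ 1 := fun x => by split_ifs <;> omega
        have := h11 (v 0)
        have := h11 (v 1)
        have := h11 (v 2)
        omega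
      · have g3 : ∑ j, v j + (v 0 + 1).choose 2 + (v 1 + 1).choose 2 + (v 2 + 1).choose 2 ≤
            ∑ j, (v j + 1).choose 2 + (v 0 + v 1 + v 2) :=
          three_le v hthree
        omega

end Pool.Agent.TH167.SH
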